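import Mathlib

/-!
# A checker for prefixes of primary pseudoperfect numbers
-/

set_option autoImplicit false

namespace Pool.Agent.H33.PP

/-- evaluates the argument before it is used -/
def force (x : ℕ) (f : ℕ → Bool) : Bool :=
  Nat.rec (f 0) (fun m _ => f (Nat.succ m)) x

/-- `f k` for all `k < K` -/
def all1 (K : ℕ) (f : ℕ → Bool) : Bool :=
  Nat.rec true (fun k ih => Bool.rec false ih (f k)) K

/-- `f k` for all `k < K`, in blocks -/
def all2 (K : ℕ) (f : ℕ → Bool) : Bool :=
  all1 (Nat.succ (Nat.div K 256)) fun j => force (Nat.mul 256 j) fun b =>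
    all1 (Nat.sub 256 (Nat.sub 256 (Nat.sub K b))) fun k => f (Nat.add b k)

/-- `f k` for all `k < K`, in blocks -/
def all3 (K : ℕ) (f : ℕ → Bool) : Bool :=
  all1 (Nat.succ (Nat.div K 65536)) fun j => force (Nat.mul 65536 j) fun b =>
    all2 (Nat.sub 65536 (Nat.sub 65536 (Nat.sub K b))) fun k => f (Nat.add b k)

/-- `x ≠ 0` -/
def nz (x : ℕ) : Bool := Nat.rec false (fun _ _ => true) x

/-- `M % (d + a k) ≠ 0` for all `k < K` -/
def dir (M d a K : ℕ) : Bool := all3 K fun k => nz (Nat.mod M (Nat.add d (Nat.mul a k)))

/-- one step of Newton's method for the square root -/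
def nstep (E x : ℕ) : ℕ := Nat.div (Nat.add x (Nat.div E x)) 2

/-- `r ^ 2 < E < (r + 1) ^ 2` -/
def btw (E r : ℕ) : Bool :=
  Bool.rec false (Nat.ble (Nat.succ E) (Nat.mul (Nat.succ r) (Nat.succ r)))
    (Nat.ble (Nat.succ (Nat.mul r r)) E)

/-- `E` is not a square (or zero), by Newton's method -/
def nsq (E : ℕ) : Bool :=
  Nat.rec true (fun _ _ =>
    force (Nat.pow 2 (Nat.succ (Nat.div (Nat.log2 E) 2))) fun x0 =>
    force (nstep E x0) fun x1 => force (nstep E x1) fun x2 => force (nstep E x2) fun x3 =>
    force (nstep E x3) fun x4 => force (nstep E x4) fun x5 => force (nstep E x5) fun x6 =>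
    Bool.rec (btw E (Nat.pred x6)) true (btw E x6)) E

/-- the residues of squares modulo 5040 -/
def mask : ℕ := 128463128216207705975161753260164685604801607293727006132625148500141963984772699743577955351065481834426997516555165193156695149802397735514643021091044085322179663362850460271263597712820581552725325454980241959104458613316598749594039277033954593028168754308591610873242017337746968893776703336550602572772728803709021025601909630230645173453103707553486820597541285605719010362433766902145990975408449163037106790239925466633464877809680562713637595866176031626806349590466409483523110196185722145257513389848705517590760294419562178848641038791500220699983501824697094194966835729936094914698488600845300428170446042134619714141609151318752565607546292152071694097903493206982103265202715049207722308904387470765312664195533973858790502083359562750827256554905205273996232363691818091508341774229256814133934625496650794981178767742000730422835780134258392563034917144653998140688677405396823177126748832365901678962323472221091543551206354831622481316460633243152885113657713702515751614875526531213713482140435591861700432674946398827657665905195787267061388019683264664978510508124155461917283018726381508150670192373226908881244115202042945142580547507839914262845961331859363697894750786198216057359575866749183517418470901662280060897174232097726333706295666207231808887950422951468407924453663916143376771981208100925199236866185232993004109135038957886711983716068124058014423725867878767108295320104853968913158981346142902702702507959577761167327807203618952225256526223010497043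

/-- a bit of a number -/
def bit (m i : ℕ) : Bool := nz (Nat.mod (Nat.div m (Nat.pow 2 i)) 2)

/-- `E` is not a square (or zero) -/
def sqc (E : ℕ) : Bool :=
  force E fun E' => Bool.rec true (nsq E') (bit mask (Nat.mod E' 5040))

/-- Euclid's algorithm -/
def einv (s : ℕ) (f : ℕ → Bool) (F : ℕ) : ℕ → ℕ → ℕ → ℕ → Bool → Bool :=
  Nat.rec (fun _ _ _ _ _ => false) (fun _ ih r0 r1 t0 t1 sg =>
    Nat.rec (f 0) (fun r _ => Nat.rec (Bool.rec (f (Nat.sub s t1)) (f t1) sg) (fun _ _ =>
      force (Nat.div r0 r1) fun q => force (Nat.sub r0 (Nat.mul q r1)) fun r2 =>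
        force (Nat.add t0 (Nat.mul q t1)) fun t2 => ih r1 r2 t1 t2 (Bool.rec true false sg)) r) r1)
    F

/-- the smallest sum in the progression -/
def sbase (n s w : ℕ) (f : ℕ → Bool) : Bool :=
  force (Nat.add w (Nat.mul s (Nat.mod (Nat.mul (Nat.mul 3 s) (Nat.succ (Nat.add s w))) 4)))
    fun a => force (Nat.mul 4 (Nat.mul s s)) fun m =>
      f (Nat.add a (Nat.mul (Nat.mul 4 s)
        (Nat.div (Nat.sub (Nat.add (Nat.mul 4 n) m) (Nat.succ (Nat.mul s a))) m)))

/-- the check of the sums -/
def sums (n s S sb : ℕ) : Bool :=
  Bool.rec false (Bool.rec false (Bool.rec false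
    (force (Nat.div sb 2) fun h => force (Nat.div (Nat.succ (Nat.mul n sb)) s) fun e =>
      force (Nat.mul 2 s) fun s2 => force (Nat.mul 4 n) fun n4 =>
      all3 (Nat.div (Nat.sub (Nat.add S (Nat.mul 4 (Nat.mul s s))) (Nat.mul s sb))
        (Nat.mul 4 (Nat.mul s s))) fun t =>
        sqc (Nat.sub (Nat.mul (Nat.add h (Nat.mul s2 t)) (Nat.add h (Nat.mul s2 t)))
          (Nat.add e (Nat.mul n4 t))))
    (Nat.ble (Nat.succ (Nat.mul s sb)) (Nat.add (Nat.mul 4 n) (Nat.mul 4 (Nat.mul s s)))))
    (Nat.beq (Nat.mod (Nat.add sb s) 4) 3))
    (Nat.beq (Nat.mod (Nat.succ (Nat.mul n sb)) s) 0)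

/-- two primes are left -/
def leaf (n s _last : ℕ) : Bool :=
  force (Nat.add (Nat.mul n n) s) fun M =>
  force (Nat.succ (Nat.mul 2 (Nat.div (Nat.succ (Nat.div n s)) 2))) fun b =>
  force (Nat.succ (Nat.div n (Nat.mul s (Nat.pow 2 (Nat.succ (Nat.div (Nat.log2 s) 2)))))) fun K =>
  Bool.rec false (
    force (Nat.sub (Nat.mul s (Nat.add b (Nat.mul 2 K))) n) fun U =>
    force (Nat.add (Nat.add (Nat.mul 2 n) U) (Nat.div M U)) fun S =>
    einv s (fun w => sbase n s w fun sb => force sb fun sb' => sums n s S sb') 200 s (Nat.mod n s)
      0 1 false)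
    (dir M (Nat.sub (Nat.mul s b) n) (Nat.mul 2 s) K)

/-- the primes below 174 -/
def smask : ℕ := 12171571892389672901209921529386774213744520380164268

/-- the product of the primes below 174 -/
def primo : ℕ := 166589903787325219380851695350896256250980509594874862046961683989710

/-- candidates for primes -/
def cand (p : ℕ) : Bool := Bool.rec (bit smask p) true (Nat.beq (Nat.gcd p primo) 1)

/-- the next prime -/
def step (f : ℕ → ℕ → ℕ → Bool) (r n s last : ℕ) : Bool :=
  force (Nat.succ (Nat.add last (Nat.sub (Nat.div n s) last))) fun lo =>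
    all2 (Nat.sub (Nat.succ (Nat.div (Nat.mul r n) s)) lo) fun k =>
      force (Nat.add lo k) fun p =>
        Bool.rec true (force (Nat.mul n p) fun n' => force (Nat.sub (Nat.mul s p) n) fun s' =>
          f n' s' p) (cand p)

def node3 : ℕ → ℕ → ℕ → Bool := step leaf 3
def node4 : ℕ → ℕ → ℕ → Bool := step node3 4
def node5 : ℕ → ℕ → ℕ → Bool := step node4 5
def node6 : ℕ → ℕ → ℕ → Bool := step node5 6
def node7 : ℕ → ℕ → ℕ → Bool := step node6 7

end Pool.Agent.H33.PP
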