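import Mathlib

/-!
# Primary pseudoperfect numbers: the residue of the number and the number of prime factors
-/

set_option autoImplicit false

open Finset
open scoped NumberTheorySymbols

namespace Pool.Agent.H33.PP

/-- the sum of the quotients by the primes -/
def dv (s : Finset ℕ) : ℕ := ∑ p ∈ s, ∏ q ∈ s.erase p, q

theorem jac_prod (a : ℤ) (s : Finset ℕ) (hs : ∀ p ∈ s, p ≠ 0) :
    J(a | ∏ p ∈ s, p) = ∏ p ∈ s, J(a | p) := by
  classical
  induction s using Finset.induction_on with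
  | empty => simp
  | insert b s hb ih =>
    rw [Finset.prod_insert hb, Finset.prod_insert hb, jacobiSym.mul_right' a
      (hs b (Finset.mem_insert_self b s))
      (Finset.prod_ne_zero_iff.2 fun p hp => hs p (Finset.mem_insert_of_mem hp)),
      ih fun p hp => hs p (Finset.mem_insert_of_mem hp)]

theorem sgn_choose (t : ℕ) :
    (-1 : ℤ) ^ (t.choose 2) = if t % 4 = 0 ∨ t % 4 = 1 then 1 else -1 := by
  have h : ∀ j, (-1 : ℤ) ^ ((4 * j).choose 2) = 1 ∧ (-1 : ℤ) ^ ((4 * j + 1).choose 2) = 1 ∧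
      (-1 : ℤ) ^ ((4 * j + 2).choose 2) = -1 ∧ (-1 : ℤ) ^ ((4 * j + 3).choose 2) = -1 := by
    have hs : ∀ n : ℕ, (-1 : ℤ) ^ ((n + 1).choose 2) = (-1) ^ n * (-1) ^ (n.choose 2) := by
      intro n
      rw [Nat.choose_succ_succ, Nat.choose_one_right, pow_add]
    intro j
    induction j with
    | zero => decide
    | succ j ih =>
      obtain ⟨_, _, _, h3⟩ := ih
      have e0 : (-1 : ℤ) ^ ((4 * (j + 1)).choose 2) = 1 := by
        rw [show 4 * (j + 1) = 4 * j + 3 + 1 by ring, hs, h3,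
          Odd.neg_one_pow ⟨2 * j + 1, by ring⟩]
        norm_num
      have e1 : (-1 : ℤ) ^ ((4 * (j + 1) + 1).choose 2) = 1 := by
        rw [hs, e0, Even.neg_one_pow ⟨2 * (j + 1), by ring⟩]
        norm_num
      have e2 : (-1 : ℤ) ^ ((4 * (j + 1) + 2).choose 2) = -1 := by
        rw [show 4 * (j + 1) + 2 = 4 * (j + 1) + 1 + 1 by ring, hs, e1,
          Odd.neg_one_pow ⟨2 * (j + 1), by ring⟩]
        norm_num
      have e3 : (-1 : ℤ) ^ ((4 * (j + 1) + 3).choose 2) = -1 := by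
        rw [show 4 * (j + 1) + 3 = 4 * (j + 1) + 2 + 1 by ring, hs, e2,
          Even.neg_one_pow ⟨2 * (j + 1) + 1, by ring⟩]
        norm_num
      exact ⟨e0, e1, e2, e3⟩
  obtain ⟨h0, h1, h2, h3⟩ := h (t / 4)
  have ht := Nat.div_add_mod t 4
  have hlt := Nat.mod_lt t (show 0 < 4 by norm_num)
  generalize t / 4 = j at *
  generalize t % 4 = i at *
  subst ht
  interval_cases i <;> simp_all

/-- The invariants of a set of odd primes. -/
theorem inv (s : Finset ℕ) (hs : ∀ p ∈ s, p.Prime ∧ p ≠ 2) :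
    ∃ t w : ℕ, (∏ p ∈ s, p) % 8 = (3 ^ t * 5 ^ w) % 8 ∧
      (∑ p ∈ s, p) % 8 = (s.card + 2 * t + 4 * w) % 8 ∧
      ∏ p ∈ s, J(((∏ q ∈ s.erase p, q : ℕ) : ℤ) | p) = (-1) ^ (t.choose 2) := by
  classical
  induction s using Finset.induction_on with
  | empty => exact ⟨0, 0, by simp⟩
  | insert a s ha ih =>
    have hs' : ∀ p ∈ s, p.Prime ∧ p ≠ 2 := fun p hp => hs p (Finset.mem_insert_of_mem hp)
    obtain ⟨t, w, h1, h2, h3⟩ := ih hs'
    obtain ⟨hap, ha2⟩ := hs a (Finset.mem_insert_self a s)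
    have haodd : Odd a := hap.odd_of_ne_two ha2
    have hsodd : ∀ p ∈ s, Odd p := fun p hp => (hs' p hp).1.odd_of_ne_two (hs' p hp).2
    have hModd : Odd (∏ p ∈ s, p) := by
      refine Finset.prod_induction _ (fun n => Odd n) (fun x y hx hy => hx.mul hy) odd_one hsodd
    have hcop : Nat.Coprime a (∏ p ∈ s, p) := by
      rw [Nat.coprime_prod_right_iff]
      intro p hp
      refine (Nat.coprime_primes hap (hs' p hp).1).2 ?_
      rintro rfl
      exact ha hp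
    have hF : ∏ p ∈ insert a s, J(((∏ q ∈ (insert a s).erase p, q : ℕ) : ℤ) | p) =
        (-1) ^ (a / 2 * ((∏ p ∈ s, p) / 2)) * (-1) ^ (t.choose 2) := by
      rw [Finset.prod_insert ha, Finset.erase_insert ha]
      have e1 : ∏ p ∈ s, J(((∏ q ∈ (insert a s).erase p, q : ℕ) : ℤ) | p) =
          (∏ p ∈ s, J((a : ℤ) | p)) * ∏ p ∈ s, J(((∏ q ∈ s.erase p, q : ℕ) : ℤ) | p) := by
        rw [← Finset.prod_mul_distrib]
        refine Finset.prod_congr rfl fun p hp => ?_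
        have hpa : a ≠ p := by
          rintro rfl
          exact ha hp
        rw [Finset.erase_insert_of_ne hpa, Finset.prod_insert
          (fun h => ha (Finset.mem_of_mem_erase h)), Nat.cast_mul, jacobiSym.mul_left]
      rw [e1, h3, ← jac_prod (a : ℤ) s fun p hp => (hs' p hp).1.ne_zero, ← mul_assoc]
      congr 1
      have e2 := jacobiSym.quadratic_reciprocity haodd hModd
      have e3 : J(((∏ p ∈ s, p : ℕ) : ℤ) | a) ^ 2 = 1 :=
        jacobiSym.sq_one (by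
          rw [Int.gcd_natCast_natCast]
          exact hcop.symm)
      rw [e2]
      calc J(((∏ p ∈ s, p : ℕ) : ℤ) | a) * ((-1) ^ (a / 2 * ((∏ p ∈ s, p) / 2)) *
            J(((∏ p ∈ s, p : ℕ) : ℤ) | a))
          = (-1) ^ (a / 2 * ((∏ p ∈ s, p) / 2)) * J(((∏ p ∈ s, p : ℕ) : ℤ) | a) ^ 2 := by ring
        _ = _ := by rw [e3, mul_one]
    obtain ⟨M, hM⟩ : ∃ M, M = ∏ p ∈ s, p := ⟨_, rfl⟩
    rw [← hM] at h1 hModd hF
    have hM4 : M % 4 = 3 ^ t % 4 := by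
      have e1 : M % 4 = (M % 8) % 4 := by omega
      rw [e1, h1, Nat.mod_mod_of_dvd _ (by norm_num : 4 ∣ 8), Nat.mul_mod, Nat.pow_mod 5]
      simp
    have hMp : (-1 : ℤ) ^ (M / 2) = (-1) ^ t := by
      rcases Nat.even_or_odd t with ht | ht
      · obtain ⟨j, rfl⟩ := ht
        have e1 : 3 ^ (j + j) % 4 = 1 := by
          rw [← two_mul, pow_mul, Nat.pow_mod]
          simp
        rw [e1] at hM4
        rw [Even.neg_one_pow ⟨M / 4, by omega⟩, Even.neg_one_pow ⟨j, rfl⟩]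
      · obtain ⟨j, rfl⟩ := ht
        have e1 : 3 ^ (2 * j + 1) % 4 = 3 := by
          rw [pow_succ, pow_mul, Nat.mul_mod, Nat.pow_mod]
          simp
        rw [e1] at hM4
        rw [Odd.neg_one_pow ⟨M / 4, by omega⟩, Odd.neg_one_pow ⟨j, rfl⟩]
    have ha8 : a % 8 = 1 ∨ a % 8 = 3 ∨ a % 8 = 5 ∨ a % 8 = 7 := by
      obtain ⟨j, rfl⟩ := haodd
      omega
    rw [Finset.prod_insert ha, Finset.sum_insert ha, Finset.card_insert_of_notMem ha, ← hM, hF]
    rcases ha8 with h8 | h8 | h8 | h8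
    · refine ⟨t, w, ?_, by omega, ?_⟩
      · rw [Nat.mul_mod, h8, h1]
        simp
      · rw [mul_comm (a / 2), pow_mul, hMp, ← pow_mul,
          Even.neg_one_pow ((show Even (a / 2) from ⟨a / 4, by omega⟩).mul_left t), one_mul]
    · refine ⟨t + 1, w, ?_, by omega, ?_⟩
      · rw [Nat.mul_mod, h8, h1, pow_succ, ← Nat.mul_mod_mod, mul_right_comm (3 ^ t), mul_comm _ 3,
          Nat.mul_mod_mod]
        simp [Nat.mul_mod]
      · rw [mul_comm (a / 2), pow_mul, hMp, ← pow_mul, Nat.choose_succ_succ, Nat.choose_one_right,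
          pow_add]
        congr 1
        rw [mul_comm, pow_mul, Odd.neg_one_pow ⟨a / 4, by omega⟩]
    · refine ⟨t, w + 1, ?_, by omega, ?_⟩
      · rw [Nat.mul_mod, h8, h1, pow_succ]
        have : 3 ^ t * (5 ^ w * 5) = 5 * (3 ^ t * 5 ^ w) := by ring
        rw [this]
        simp [Nat.mul_mod]
      · rw [mul_comm (a / 2), pow_mul, hMp, ← pow_mul,
          Even.neg_one_pow ((show Even (a / 2) from ⟨a / 4, by omega⟩).mul_left t), one_mul]
    · refine ⟨t + 1, w + 1, ?_, by omega, ?_⟩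
      · rw [Nat.mul_mod, h8, h1]
        have : 3 ^ (t + 1) * 5 ^ (w + 1) = 15 * (3 ^ t * 5 ^ w) := by ring
        rw [this, Nat.mul_mod 15]
      · rw [mul_comm (a / 2), pow_mul, hMp, ← pow_mul, Nat.choose_succ_succ, Nat.choose_one_right,
          pow_add]
        congr 1
        rw [mul_comm, pow_mul, Odd.neg_one_pow ⟨a / 4, by omega⟩]

theorem dv_mod (s : Finset ℕ) (hs : ∀ p ∈ s, p.Prime ∧ p ≠ 2) :
    dv s % 8 = ((∏ p ∈ s, p) * ∑ p ∈ s, p) % 8 := by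
  classical
  have h : (dv s : ZMod 8) = ((∏ p ∈ s, p : ℕ) : ZMod 8) * ((∑ p ∈ s, p : ℕ) : ZMod 8) := by
    unfold dv
    rw [Nat.cast_sum, Nat.cast_sum, Finset.mul_sum]
    refine Finset.sum_congr rfl fun p hp => ?_
    rw [← Finset.mul_prod_erase s (fun q => q) hp]
    have hodd : Odd p := (hs p hp).1.odd_of_ne_two (hs p hp).2
    have h1 : (p : ZMod 8) * (p : ZMod 8) = 1 := by
      obtain ⟨j, rfl⟩ := hodd
      have h2 : ((2 * j + 1) * (2 * j + 1) : ℕ) % 8 = 1 % 8 := by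
        have : (2 * j + 1) * (2 * j + 1) = 4 * (j * (j + 1)) + 1 := by ring
        obtain ⟨i, hi⟩ := Nat.even_mul_succ_self j
        rw [this, hi]
        omega
      have h3 := (ZMod.natCast_eq_natCast_iff' _ _ 8).2 h2
      rw [Nat.cast_mul, Nat.cast_one] at h3
      exact h3
    push_cast
    calc (∏ q ∈ s.erase p, (q : ZMod 8)) = (p : ZMod 8) * p * ∏ q ∈ s.erase p, (q : ZMod 8) := by
          rw [h1, one_mul]
      _ = _ := by ring
  rw [← Nat.cast_mul] at h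
  exact (ZMod.natCast_eq_natCast_iff' _ _ 8).1 h

theorem dv_modp (s : Finset ℕ) (p : ℕ) (hp : p ∈ s) :
    ∃ c, dv s = (∏ q ∈ s.erase p, q) + p * c := by
  classical
  unfold dv
  rw [← Finset.add_sum_erase s _ hp]
  have h : p ∣ ∑ x ∈ s.erase p, ∏ q ∈ s.erase x, q := by
    refine Finset.dvd_sum fun x hx => ?_
    exact Finset.dvd_prod_of_mem (fun q => q)
      (Finset.mem_erase.2 ⟨(Finset.ne_of_mem_erase hx).symm, hp⟩)
  obtain ⟨c, hc⟩ := h
  exact ⟨c, by rw [hc]⟩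

theorem sign_eq (s : Finset ℕ) (hs : ∀ p ∈ s, p.Prime ∧ p ≠ 2) (a : ℤ)
    (ha : ∀ p ∈ s, (a * ((∏ q ∈ s.erase p, q : ℕ) : ℤ)) % p = 1 % p) (t : ℕ)
    (ht : ∏ p ∈ s, J(((∏ q ∈ s.erase p, q : ℕ) : ℤ) | p) = (-1) ^ (t.choose 2)) :
    J(a | ∏ p ∈ s, p) = if t % 4 = 0 ∨ t % 4 = 1 then 1 else -1 := by
  rw [← sgn_choose, ← ht, jac_prod a s fun p hp => (hs p hp).1.ne_zero]
  refine Finset.prod_congr rfl fun p hp => ?_
  have h1 : J(a | p) * J(((∏ q ∈ s.erase p, q : ℕ) : ℤ) | p) = 1 := by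
    rw [← jacobiSym.mul_left, jacobiSym.mod_left' (ha p hp), jacobiSym.one_left]
  rcases Int.eq_one_or_neg_one_of_mul_eq_one h1 with h2 | h2
  · rw [h2, one_mul] at h1
    rw [h2, h1]
  · rw [h2] at h1 ⊢
    linarith

theorem prod_odd (s : Finset ℕ) (hs : ∀ p ∈ s, p.Prime ∧ p ≠ 2) : Odd (∏ p ∈ s, p) :=
  Finset.prod_induction _ (fun n => Odd n) (fun _ _ hx hy => hx.mul hy) odd_one
    fun p hp => (hs p hp).1.odd_of_ne_two (hs p hp).2

theorem key_even (M8 S8 D8 k8 t8 w2 : ℕ) (hk : k8 < 8) (ht : t8 < 8) (hw : w2 < 8)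
    (e1 : M8 = ((if t8 % 2 = 0 then 1 else 3) * (if w2 % 2 = 0 then 1 else 5)) % 8)
    (e2 : S8 = (k8 + 2 * t8 + 4 * w2) % 8) (e3 : D8 = (M8 * S8) % 8) (e4 : M8 = (2 * D8 + 1) % 8)
    (e5 : (if M8 = 1 ∨ M8 = 3 then (1 : ℤ) else -1) =
        if t8 % 4 = 0 ∨ t8 % 4 = 1 then 1 else -1) : D8 = k8 := by
  subst e1 e2 e3
  interval_cases t8 <;> interval_cases w2 <;> interval_cases k8 <;> simp_all

theorem key_odd (M8 S8 D8 k8 t8 w2 : ℕ) (hk : k8 < 8) (ht : t8 < 8) (hw : w2 < 8)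
    (e1 : M8 = ((if t8 % 2 = 0 then 1 else 3) * (if w2 % 2 = 0 then 1 else 5)) % 8)
    (e2 : S8 = (k8 + 2 * t8 + 4 * w2) % 8) (e3 : D8 = (M8 * S8) % 8) (e4 : M8 = (D8 + 1) % 8)
    (e5 : (if M8 % 4 = 1 then (1 : ℤ) else -1) =
        if t8 % 4 = 0 ∨ t8 % 4 = 1 then 1 else -1) : k8 = 0 := by
  subst e1 e2 e3
  interval_cases t8 <;> interval_cases w2 <;> interval_cases k8 <;> simp_all

/-- The norm of a characteristic vector: the even case. -/
theorem core_even (s : Finset ℕ) (hs : ∀ p ∈ s, p.Prime ∧ p ≠ 2)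
    (h : ∏ p ∈ s, p = 2 * dv s + 1) : dv s % 8 = s.card % 8 := by
  classical
  obtain ⟨t, w, h1, h2, h3⟩ := inv s hs
  have h4 := sign_eq s hs (-2) (by
    intro p hp
    obtain ⟨c, hc⟩ := dv_modp s p hp
    obtain ⟨d, hd⟩ : p ∣ ∏ p ∈ s, p := Finset.dvd_prod_of_mem (fun q => q) hp
    rw [h, hc] at hd
    refine Int.emod_emod_of_dvd _ (dvd_refl _) |>.symm.trans ?_
    rw [Int.emod_emod_of_dvd _ (dvd_refl _)]
    refine Int.emod_eq_emod_iff_emod_sub_eq_zero.2 (Int.emod_eq_zero_of_dvd ⟨2 * c - d, ?_⟩)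
    have hd' : (2 * (((∏ q ∈ s.erase p, q : ℕ) : ℤ) + p * c) + 1 : ℤ) = p * d := by
      exact_mod_cast hd
    linarith) t h3
  rw [jacobiSym.at_neg_two (prod_odd s hs), ZMod.χ₈'_nat_eq_if_mod_eight] at h4
  have h5 := dv_mod s hs
  obtain ⟨M, hM⟩ : ∃ M, M = ∏ p ∈ s, p := ⟨_, rfl⟩
  obtain ⟨S, hS⟩ : ∃ S, S = ∑ p ∈ s, p := ⟨_, rfl⟩
  rw [← hM] at h h1 h4 h5
  rw [← hS] at h2 h5
  rw [Nat.mul_mod] at h5
  generalize dv s = D at *
  generalize s.card = k at *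
  have ht : 3 ^ t % 8 = if t % 2 = 0 then 1 else 3 := by
    rcases Nat.even_or_odd' t with ⟨j, rfl | rfl⟩
    · rw [pow_mul, Nat.pow_mod]; simp
    · rw [pow_succ, pow_mul, Nat.mul_mod, Nat.pow_mod]; simp [Nat.add_mod]
  have hw : 5 ^ w % 8 = if w % 2 = 0 then 1 else 5 := by
    rcases Nat.even_or_odd' w with ⟨j, rfl | rfl⟩
    · rw [pow_mul, Nat.pow_mod]; simp
    · rw [pow_succ, pow_mul, Nat.mul_mod, Nat.pow_mod]; simp [Nat.add_mod]
  rw [Nat.mul_mod, ht, hw] at h1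
  have hM2 : M % 2 = 1 := by omega
  rw [if_neg (by omega)] at h4
  have hlt : ∀ n : ℕ, n % 8 < 8 := fun n => Nat.mod_lt n (by norm_num)
  exact key_even (M % 8) (S % 8) (D % 8) (k % 8) (t % 8) (w % 8) (hlt _) (hlt _) (hlt _) (by
      rw [Nat.mod_mod_of_dvd t (by norm_num : 2 ∣ 8), Nat.mod_mod_of_dvd w (by norm_num : 2 ∣ 8)]
      exact h1) (by omega) h5 (by omega) (by
      rw [Nat.mod_mod_of_dvd t (by norm_num : 4 ∣ 8)]
      exact h4)

/-- The even unimodular lattices: the odd case. -/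
theorem core_odd (s : Finset ℕ) (hs : ∀ p ∈ s, p.Prime ∧ p ≠ 2)
    (h : ∏ p ∈ s, p = dv s + 1) : s.card % 8 = 0 := by
  classical
  obtain ⟨t, w, h1, h2, h3⟩ := inv s hs
  have h4 := sign_eq s hs (-1) (by
    intro p hp
    obtain ⟨c, hc⟩ := dv_modp s p hp
    obtain ⟨d, hd⟩ : p ∣ ∏ p ∈ s, p := Finset.dvd_prod_of_mem (fun q => q) hp
    rw [h, hc] at hd
    refine Int.emod_eq_emod_iff_emod_sub_eq_zero.2 (Int.emod_eq_zero_of_dvd ⟨c - d, ?_⟩)
    have hd' : ((((∏ q ∈ s.erase p, q : ℕ) : ℤ) + p * c) + 1 : ℤ) = p * d := by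
      exact_mod_cast hd
    linarith) t h3
  rw [jacobiSym.at_neg_one (prod_odd s hs), ZMod.χ₄_nat_eq_if_mod_four] at h4
  have h5 := dv_mod s hs
  obtain ⟨M, hM⟩ : ∃ M, M = ∏ p ∈ s, p := ⟨_, rfl⟩
  obtain ⟨S, hS⟩ : ∃ S, S = ∑ p ∈ s, p := ⟨_, rfl⟩
  have hModd : Odd M := hM ▸ prod_odd s hs
  rw [← hM] at h h1 h4 h5
  rw [← hS] at h2 h5
  rw [Nat.mul_mod] at h5
  generalize dv s = D at *
  generalize s.card = k at *
  have ht : 3 ^ t % 8 = if t % 2 = 0 then 1 else 3 := by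
    rcases Nat.even_or_odd' t with ⟨j, rfl | rfl⟩
    · rw [pow_mul, Nat.pow_mod]; simp
    · rw [pow_succ, pow_mul, Nat.mul_mod, Nat.pow_mod]; simp [Nat.add_mod]
  have hw : 5 ^ w % 8 = if w % 2 = 0 then 1 else 5 := by
    rcases Nat.even_or_odd' w with ⟨j, rfl | rfl⟩
    · rw [pow_mul, Nat.pow_mod]; simp
    · rw [pow_succ, pow_mul, Nat.mul_mod, Nat.pow_mod]; simp [Nat.add_mod]
  rw [Nat.mul_mod, ht, hw] at h1
  have hM2 : M % 2 = 1 := by
    obtain ⟨j, rfl⟩ := hModd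
    omega
  rw [if_neg (by omega)] at h4
  have hlt : ∀ n : ℕ, n % 8 < 8 := fun n => Nat.mod_lt n (by norm_num)
  exact key_odd (M % 8) (S % 8) (D % 8) (k % 8) (t % 8) (w % 8) (hlt _) (hlt _) (hlt _) (by
      rw [Nat.mod_mod_of_dvd t (by norm_num : 2 ∣ 8), Nat.mod_mod_of_dvd w (by norm_num : 2 ∣ 8)]
      exact h1) (by omega) h5 (by omega) (by
      rw [Nat.mod_mod_of_dvd t (by norm_num : 4 ∣ 8), Nat.mod_mod_of_dvd M (by norm_num : 4 ∣ 8)]
      exact h4)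

end Pool.Agent.H33.PP
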