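import Pool.Agent.H33.PP.Step

/-!
# Kernel computations
-/

set_option autoImplicit false

namespace Pool.Agent.H33.PP

theorem P_2_5 : P 8 2 1 5 :=
  node8_sound (by unfold Ok; omega) (by decide +kernel)

theorem P_10_7 : P 7 10 3 7 :=
  node7_sound (by unfold Ok; omega) (by decide +kernel)

theorem P_70_13 : P 6 70 11 13 :=
  node6_sound (by unfold Ok; omega) (by decide +kernel)

theorem P_770_17 : P 5 770 51 17 :=
  node5_sound (by unfold Ok; omega) (by decide +kernel)

theorem P_13090_139 : P 4 13090 97 139 :=
  node4_sound (by unfold Ok; omega) (by decide +kernel)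

end Pool.Agent.H33.PP
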