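import Pool.Agent.H33.PP.Step

/-!
# Kernel computations
-/

set_option autoImplicit false

namespace Pool.Agent.H33.PP

theorem P_727090_8363 : P 3 727090 87 8363 :=
  node3_sound (by unfold Ok; omega) (by decide +kernel)

end Pool.Agent.H33.PP
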