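import Pool.Agent.H33.PP.Top
import Pool.Agent.H33.PP.KA
import Pool.Agent.H33.PP.KB
import Pool.Agent.H33.PP.KC
import Pool.Agent.H33.PP.KD
import Pool.Agent.H33.PP.KE

/-!
# Primary pseudoperfect numbers with nine prime factors
-/

set_option autoImplicit false

open Finset

namespace Pool.Agent.H33.PP

theorem P_all : P 8 2 1 3 := by
  have a1 : P 3 727090 87 47 :=
    P_cases 8363 (by norm_num) (by unfold Ok; omega) P_6080653670_8363 P_727090_8363
      (by
        intro q hq _ h1 h2
        have h3 : 8357 < q := h1
        interval_cases q <;> revert hq <;> norm_num)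
  have a2 : P 4 15470 331 17 :=
    P_cases 47 (by norm_num) (by unfold Ok; omega) a1 P_15470_47
      (by
        intro q hq _ h1 h2
        have h3 : 46 < q := h1
        omega)
  have a3 : P 5 910 73 13 :=
    P_cases 17 (by norm_num) (by unfold Ok; omega) a2 P_910_17
      (by
        intro q hq h1 _ h2
        interval_cases q <;> revert hq <;> norm_num)
  have b1 : P 3 1793330 199 137 :=
    P_cases 9013 (by norm_num) (by unfold Ok; omega) (top_leaf 9013 (by norm_num))
      P_1793330_9013 (by
        intro q hq _ h1 h2
        have h3 : 9011 < q := h1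
        interval_cases q <;> revert hq <;> norm_num)
  have b2 : P 4 13090 97 137 :=
    P_cases 139 (by norm_num) (by unfold Ok; omega) P_1819510_139 P_13090_139
      (by
        intro q hq h1 _ h2
        interval_cases q <;> revert hq <;> norm_num)
  have b3 : P 4 13090 97 17 :=
    P_cases 137 (by norm_num) (by unfold Ok; omega) b1 b2
      (by
        intro q hq _ h1 h2
        have h3 : 134 < q := h1
        interval_cases q <;> revert hq <;> norm_num)
  have b4 : P 5 770 51 11 :=
    P_cases 17 (by norm_num) (by unfold Ok; omega) b3 P_770_17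
      (by
        intro q hq _ h1 h2
        have h3 : 15 < q := h1
        interval_cases q <;> revert hq <;> norm_num)
  have c1 : P 6 70 11 11 :=
    P_cases 13 (by norm_num) (by unfold Ok; omega) a3 P_70_13
      (by
        intro q hq h1 _ h2
        interval_cases q <;> revert hq <;> norm_num)
  have c2 : P 6 70 11 7 :=
    P_cases 11 (by norm_num) (by unfold Ok; omega) b4 c1
      (by
        intro q hq h1 _ h2
        interval_cases q <;> revert hq <;> norm_num)
  have c3 : P 7 10 3 5 :=
    P_cases 7 (by norm_num) (by unfold Ok; omega) c2 P_10_7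
      (by
        intro q hq h1 _ h2
        interval_cases q <;> revert hq <;> norm_num)
  exact P_cases 5 (by norm_num) (by unfold Ok; omega) c3 P_2_5
      (by
        intro q hq h1 _ h2
        interval_cases q <;> revert hq <;> norm_num)

theorem IsPPN.three_dvd {N : ℕ} (h : IsPPN N) (h9 : N.primeFactors.card = 9) : 3 ∣ N := by
  classical
  by_contra h3
  have h2 : 2 ∣ N := by
    by_contra h2
    have := h.card_odd h2
    omega
  have hN0 : N ≠ 0 := by have := h.1; omega
  have hmem : 2 ∈ N.primeFactors := Nat.mem_primeFactors.2 ⟨Nat.prime_two, h2, hN0⟩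
  obtain ⟨s, hs⟩ : ∃ s, s = N.primeFactors.erase 2 := ⟨_, rfl⟩
  have hins : insert 2 s = N.primeFactors := by rw [hs, Finset.insert_erase hmem]
  have h2s : 2 ∉ s := by rw [hs]; exact Finset.notMem_erase _ _
  have hcard : s.card = 8 := by
    rw [hs, Finset.card_erase_of_mem hmem, h9]
  have e1 := h.dv
  have e2 := h.prod
  rw [← hins, dv_insert s 2 h2s] at e1
  rw [← hins, Finset.prod_insert h2s] at e2
  refine P_all s hcard (fun p hp => ?_) (by omega)
  rw [hs] at hp
  have hpp := Nat.prime_of_mem_primeFactors (Finset.mem_of_mem_erase hp)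
  have hp2 := Finset.ne_of_mem_erase hp
  refine ⟨hpp, ?_⟩
  have h4 := hpp.two_le
  have h5 : p ≠ 3 := by
    rintro rfl
    exact h3 (Nat.dvd_of_mem_primeFactors (Finset.mem_of_mem_erase hp))
  omega

/-- Every primary pseudoperfect number with nine prime factors is congruent to 258 modulo 288. -/
theorem IsPPN.nine {N : ℕ} (h : IsPPN N) (h9 : N.primeFactors.card = 9) : N % 288 = 258 := by
  have h3 := h.three_dvd h9
  have h2 : 2 ∣ N := by
    by_contra h2
    have := h.card_odd h2
    omega
  have h6 : 6 ∣ N := by omega
  have := h.mod_six h6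
  rw [h9] at this
  omega

end Pool.Agent.H33.PP
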