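import Pool.Agent.H33.PP.Res

/-!
# Odd primary pseudoperfect numbers have at least 16 prime factors
-/

set_option autoImplicit false

open Finset

namespace Pool.Agent.H33.PP

/-- the first eight odd primes -/
def T8 : Finset ℕ := {3, 5, 7, 11, 13, 17, 19, 23}

theorem mem_T8 {p : ℕ} (hp : p.Prime) (h2 : p ≠ 2) (h : p ∉ T8) : 29 ≤ p := by
  by_contra hcon
  push Not at hcon
  interval_cases p <;> first
    | exact h (by decide)
    | exact h2 rfl
    | (revert hp; norm_num)

theorem sum_T8 (s : Finset ℕ) (hs : ∀ p ∈ s, p.Prime ∧ p ≠ 2) (hc : s.card = 8) :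
    ∑ p ∈ s, (1 : ℚ) / p ≤ ∑ p ∈ T8, (1 : ℚ) / p := by
  classical
  have h1 : (s \ T8).card = (T8 \ s).card := by
    have e1 := Finset.card_sdiff_add_card_inter s T8
    have e2 := Finset.card_sdiff_add_card_inter T8 s
    rw [Finset.inter_comm T8 s] at e2
    have e3 : T8.card = 8 := by decide
    omega
  have d1 : ∑ p ∈ s \ T8, (1 : ℚ) / p + ∑ p ∈ s ∩ T8, (1 : ℚ) / p = ∑ p ∈ s, (1 : ℚ) / p := by
    rw [← Finset.sum_union (Finset.disjoint_sdiff_inter s T8), Finset.sdiff_union_inter]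
  have d2 : ∑ p ∈ T8 \ s, (1 : ℚ) / p + ∑ p ∈ s ∩ T8, (1 : ℚ) / p = ∑ p ∈ T8, (1 : ℚ) / p := by
    rw [Finset.inter_comm s T8, ← Finset.sum_union (Finset.disjoint_sdiff_inter T8 s),
      Finset.sdiff_union_inter]
  rw [← d1, ← d2]
  refine add_le_add ?_ le_rfl
  calc ∑ p ∈ s \ T8, (1 : ℚ) / p ≤ ∑ p ∈ s \ T8, (1 : ℚ) / 23 := by
        refine Finset.sum_le_sum fun p hp => ?_
        rw [Finset.mem_sdiff] at hp
        have h2 := mem_T8 (hs p hp.1).1 (hs p hp.1).2 hp.2
        have h3 : (29 : ℚ) ≤ p := by exact_mod_cast h2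
        exact one_div_le_one_div_of_le (by norm_num) (by linarith)
    _ = ∑ p ∈ T8 \ s, (1 : ℚ) / 23 := by rw [Finset.sum_const, Finset.sum_const, h1]
    _ ≤ ∑ p ∈ T8 \ s, (1 : ℚ) / p := by
        refine Finset.sum_le_sum fun p hp => ?_
        rw [Finset.mem_sdiff] at hp
        have h2 : p ≤ 23 ∧ 0 < p := by
          have : ∀ p ∈ T8, p ≤ 23 ∧ 0 < p := by decide
          exact this p hp.1
        have h3 : (p : ℚ) ≤ 23 := by exact_mod_cast h2.1
        have h4 : (0 : ℚ) < p := by exact_mod_cast h2.2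
        exact one_div_le_one_div_of_le h4 h3

theorem IsPPN.card_ge {N : ℕ} (h : IsPPN N) (h2 : ¬ 2 ∣ N) : 16 ≤ N.primeFactors.card := by
  obtain ⟨c, hc⟩ := h.card_odd h2
  have hps : ∀ p ∈ N.primeFactors, p.Prime ∧ p ≠ 2 := fun p hp =>
    ⟨Nat.prime_of_mem_primeFactors hp, by
      rintro rfl
      exact h2 (Nat.dvd_of_mem_primeFactors hp)⟩
  by_contra hcon
  have h0 : N.primeFactors.card ≠ 0 := by
    rw [Finset.card_ne_zero]
    exact Nat.nonempty_primeFactors.2 h.1
  have h8 : N.primeFactors.card = 8 := by omega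
  have h3 := sum_T8 N.primeFactors hps h8
  have h4 := h.2
  have h5 : 3 ^ 8 ≤ N := by
    have h6 := h.prod
    have h7 : ∏ p ∈ N.primeFactors, 3 ≤ ∏ p ∈ N.primeFactors, p :=
      Finset.prod_le_prod' fun p hp => by
        have e1 := (hps p hp).1.two_le
        have e2 := (hps p hp).2
        omega
    rw [Finset.prod_const, h8, h6] at h7
    exact h7
  have h6 : (1 : ℚ) / N ≤ 1 / 3 ^ 8 := by
    refine one_div_le_one_div_of_le (by norm_num) ?_
    exact_mod_cast h5
  have h7 : ∑ p ∈ T8, (1 : ℚ) / p = 1 / 3 + (1 / 5 + (1 / 7 + (1 / 11 + (1 / 13 + (1 / 17 +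
      (1 / 19 + 1 / 23)))))) := by
    unfold T8
    rw [Finset.sum_insert (by decide), Finset.sum_insert (by decide), Finset.sum_insert (by decide),
      Finset.sum_insert (by decide), Finset.sum_insert (by decide), Finset.sum_insert (by decide),
      Finset.sum_insert (by decide), Finset.sum_singleton]
    norm_num
  rw [h7] at h3
  norm_num at h3 h4 h6
  linarith

end Pool.Agent.H33.PP
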