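import Mathlib
import Pool.Agent.H74.PP.Targets
import Pool.Agent.H73.PP.PR

/-!
# Prime sums with different dilations (`T_PX`)
-/

set_option autoImplicit false

open Complex MeasureTheory Set

namespace Pool.Agent.H33.PP

open Pool.Agent.H23.GLH (PrimChar)
open Pool.Agent.H28.MZ (co)
open Pool.Agent.H74.PP Pool.Agent.H73.PP

/-- the oscillating integral -/
theorem osc_le (ω T₁ T₂ : ℝ) (hω : ω ≠ 0) :
    ‖∫ t in T₁..T₂, cexp (-((ω : ℂ) * t) * I)‖ ≤ 2 / |ω| := by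
  have hc : -(ω : ℂ) * I ≠ 0 := by
    apply mul_ne_zero _ I_ne_zero
    rw [neg_ne_zero]
    exact_mod_cast hω
  have h1 : ∀ t : ℝ, cexp (-((ω : ℂ) * t) * I) = cexp ((-(ω : ℂ) * I) * t) := by
    intro t; congr 1; ring
  simp_rw [h1]
  rw [integral_exp_mul_complex hc, norm_div]
  have h2 : ‖-(ω : ℂ) * I‖ = |ω| := by
    rw [norm_mul, norm_neg, norm_I, mul_one, Complex.norm_real, Real.norm_eq_abs]
  rw [h2]
  apply div_le_div_of_nonneg_right _ (abs_nonneg ω)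
  refine (norm_sub_le _ _).trans ?_
  have h3 : ∀ t : ℝ, ‖cexp ((-(ω : ℂ) * I) * t)‖ = 1 := by
    intro t
    have : (-(ω : ℂ) * I) * t = ((-(ω * t) : ℝ) : ℂ) * I := by push_cast; ring
    rw [this, Complex.norm_exp_ofReal_mul_I]
  rw [h3, h3]; norm_num

theorem osc_triv (ω T₁ T₂ : ℝ) (h : T₁ ≤ T₂) :
    ‖∫ t in T₁..T₂, cexp (-((ω : ℂ) * t) * I)‖ ≤ T₂ - T₁ := by
  have h1 := intervalIntegral.norm_integral_le_of_norm_le_const (a := T₁) (b := T₂) (C := 1)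
    (f := fun t : ℝ => cexp (-((ω : ℂ) * t) * I)) (by
      intro t _
      have : -((ω : ℂ) * t) * I = ((-(ω * t) : ℝ) : ℂ) * I := by push_cast; ring
      rw [this, Complex.norm_exp_ofReal_mul_I])
  rwa [one_mul, abs_of_nonneg (by linarith)] at h1

/-- expansion of the product and separation of near and far pairs -/
theorem expand_le (S S' : Finset ℕ) (c c' : ℕ → ℂ) (φ φ' : ℕ → ℝ) (g T₁ T₂ : ℝ) (hg : 0 < g)
    (h : T₁ ≤ T₂) :
    ‖∫ t in T₁..T₂, (∑ p ∈ S, c p * cexp (-((φ p : ℂ) * t) * I)) *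
      (starRingEnd ℂ) (∑ q ∈ S', c' q * cexp (-((φ' q : ℂ) * t) * I))‖ ≤
    2 / g * ((∑ p ∈ S, ‖c p‖) * ∑ q ∈ S', ‖c' q‖) +
      (T₂ - T₁) * ∑ p ∈ S, ∑ q ∈ S'.filter (fun q => |φ p - φ' q| < g), ‖c p‖ * ‖c' q‖ := by
  have e1 : ∀ t : ℝ, (∑ p ∈ S, c p * cexp (-((φ p : ℂ) * t) * I)) *
      (starRingEnd ℂ) (∑ q ∈ S', c' q * cexp (-((φ' q : ℂ) * t) * I)) =
      ∑ p ∈ S, ∑ q ∈ S', (c p * (starRingEnd ℂ) (c' q)) *
        cexp (-(((φ p - φ' q : ℝ) : ℂ) * t) * I) := by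
    intro t
    rw [map_sum, Finset.sum_mul_sum]
    apply Finset.sum_congr rfl
    intro p _
    apply Finset.sum_congr rfl
    intro q _
    rw [map_mul, ← Complex.exp_conj]
    have e2 : (starRingEnd ℂ) (-((φ' q : ℂ) * t) * I) = ((φ' q : ℂ) * t) * I := by
      simp
    rw [e2]
    have e3 : -(((φ p - φ' q : ℝ) : ℂ) * t) * I = -((φ p : ℂ) * t) * I + (φ' q : ℂ) * t * I := by
      push_cast; ring
    rw [e3, Complex.exp_add]
    ring
  simp_rw [e1]
  have hcont : ∀ p q, Continuous (fun t : ℝ => (c p * (starRingEnd ℂ) (c' q)) *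
        cexp (-(((φ p - φ' q : ℝ) : ℂ) * t) * I)) := fun p q => by fun_prop
  rw [intervalIntegral.integral_finsetSum (fun p _ =>
    (continuous_finsetSum _ (fun q _ => hcont p q)).intervalIntegrable _ _)]
  have hI : ∀ p q, ‖∫ t in T₁..T₂, (c p * (starRingEnd ℂ) (c' q)) *
        cexp (-(((φ p - φ' q : ℝ) : ℂ) * t) * I)‖ ≤
      2 / g * (‖c p‖ * ‖c' q‖) + (if |φ p - φ' q| < g then (T₂ - T₁) * (‖c p‖ * ‖c' q‖) else 0) := by
    intro p q
    rw [intervalIntegral.integral_const_mul, norm_mul, norm_mul, RCLike.norm_conj]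
    have h0 : 0 ≤ ‖c p‖ * ‖c' q‖ := by positivity
    have h1 : 0 ≤ 2 / g * (‖c p‖ * ‖c' q‖) := by positivity
    split_ifs with hc
    · have h2 := mul_le_mul_of_nonneg_left (osc_triv (φ p - φ' q) T₁ T₂ h) h0
      linarith
    · push Not at hc
      have hne : φ p - φ' q ≠ 0 := by
        intro h3
        rw [h3, abs_zero] at hc
        linarith
      have h2 := osc_le (φ p - φ' q) T₁ T₂ hne
      have h3 : 2 / |φ p - φ' q| ≤ 2 / g := div_le_div_of_nonneg_left (by norm_num) hg hc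
      have h4 := mul_le_mul_of_nonneg_left (h2.trans h3) h0
      linarith
  calc ‖∑ p ∈ S, ∫ t in T₁..T₂, ∑ q ∈ S', (c p * (starRingEnd ℂ) (c' q)) *
        cexp (-(((φ p - φ' q : ℝ) : ℂ) * t) * I)‖
      ≤ ∑ p ∈ S, ‖∫ t in T₁..T₂, ∑ q ∈ S', (c p * (starRingEnd ℂ) (c' q)) *
        cexp (-(((φ p - φ' q : ℝ) : ℂ) * t) * I)‖ := norm_sum_le _ _
    _ ≤ ∑ p ∈ S, ∑ q ∈ S', (2 / g * (‖c p‖ * ‖c' q‖) +
          (if |φ p - φ' q| < g then (T₂ - T₁) * (‖c p‖ * ‖c' q‖) else 0)) := by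
        apply Finset.sum_le_sum
        intro p _
        rw [intervalIntegral.integral_finsetSum (fun q _ => (hcont p q).intervalIntegrable _ _)]
        exact (norm_sum_le _ _).trans (Finset.sum_le_sum (fun q _ => hI p q))
    _ = _ := by
        simp_rw [Finset.sum_add_distrib]
        congr 1
        · rw [Finset.sum_mul_sum, Finset.mul_sum]
          apply Finset.sum_congr rfl
          intro p _
          rw [Finset.mul_sum]
        · rw [Finset.mul_sum]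
          apply Finset.sum_congr rfl
          intro p _
          rw [← Finset.sum_filter, Finset.mul_sum]

/-- the coefficient of `p` in `Pp` -/
noncomputable def cc (π : PrimChar) (l τ : ℝ) (p : ℕ) : ℂ :=
  ((1 / l : ℝ) : ℂ) * (((Real.log p * (p : ℝ) ^ (-(1 / 2 : ℝ)) * kk (Real.log p / l) : ℝ) : ℂ) *
    co π p) * (p : ℂ) ^ (-((τ : ℂ) * I))

noncomputable def SS (l : ℝ) : Finset ℕ := (Finset.Icc 1 ⌊Real.exp l⌋₊).filter Nat.Prime

theorem Pp_eq (π : PrimChar) (l a τ t : ℝ) :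
    Pp π l (a * t + τ) = ∑ p ∈ SS l, cc π l τ p *
      cexp (-((((fun p : ℕ => a * Real.log p) p : ℝ) : ℂ) * t) * I) := by
  unfold Pp SS
  rw [Finset.mul_sum]
  apply Finset.sum_congr rfl
  intro p hp
  rw [Finset.mem_filter, Finset.mem_Icc] at hp
  rw [cpow_split hp.1.1 a τ t]
  unfold cc
  ring

theorem cc_le (π : PrimChar) (l τ : ℝ) (p : ℕ) (hl : 0 < l) (hp : 1 ≤ p) :
    ‖cc π l τ p‖ ≤ 1 / l * (Real.log p * (p : ℝ) ^ (-(1 / 2 : ℝ))) := by
  unfold cc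
  rw [norm_mul, norm_pow_it (by omega), mul_one]
  have h1 : 0 ≤ Real.log p := Real.log_nonneg (by exact_mod_cast hp)
  have h2 := kk_nonneg (Real.log p / l)
  have h3 := kk_le_one (Real.log p / l)
  have h4 := norm_co_le π p
  rw [norm_mul, norm_mul, Complex.norm_real, Complex.norm_real, Real.norm_eq_abs, Real.norm_eq_abs,
    abs_of_pos (by positivity), abs_of_nonneg (by positivity)]
  calc 1 / l * (Real.log p * (p : ℝ) ^ (-(1 / 2 : ℝ)) * kk (Real.log p / l) * ‖co π p‖) ≤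
      1 / l * (Real.log p * (p : ℝ) ^ (-(1 / 2 : ℝ)) * 1 * 1) := by gcongr
    _ = _ := by ring

theorem cc_le_one (π : PrimChar) (l τ : ℝ) (p : ℕ) (hl : 0 < l) (hp : p ∈ SS l) :
    ‖cc π l τ p‖ ≤ 1 := by
  unfold SS at hp
  rw [Finset.mem_filter, Finset.mem_Icc] at hp
  refine (cc_le π l τ p hl hp.1.1).trans ?_
  have hp0 : (0 : ℝ) < p := by exact_mod_cast hp.1.1
  have h1 : Real.log p ≤ l := by
    rw [Real.log_le_iff_le_exp hp0]
    exact (Nat.cast_le.2 hp.1.2).trans (Nat.floor_le (Real.exp_pos l).le)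
  have h2 : (p : ℝ) ^ (-(1 / 2 : ℝ)) ≤ 1 :=
    Real.rpow_le_one_of_one_le_of_nonpos (by exact_mod_cast hp.1.1) (by norm_num)
  have h0 : 0 ≤ Real.log p := Real.log_nonneg (by exact_mod_cast hp.1.1)
  calc 1 / l * (Real.log p * (p : ℝ) ^ (-(1 / 2 : ℝ))) ≤ 1 / l * (l * 1) := by gcongr
    _ = 1 := by field_simp

theorem sum_cc_le (π : PrimChar) (l τ : ℝ) (hl : 0 < l) :
    ∑ p ∈ SS l, ‖cc π l τ p‖ ≤ Real.exp l := by
  calc ∑ p ∈ SS l, ‖cc π l τ p‖ ≤ ∑ _p ∈ SS l, (1 : ℝ) :=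
        Finset.sum_le_sum (fun p hp => cc_le_one π l τ p hl hp)
    _ = (SS l).card := by simp
    _ ≤ (⌊Real.exp l⌋₊ : ℝ) := by
        have h1 : (SS l).card ≤ (Finset.Icc 1 ⌊Real.exp l⌋₊).card := Finset.card_filter_le _ _
        rw [Nat.card_Icc] at h1
        have h2 : (SS l).card ≤ ⌊Real.exp l⌋₊ := by omega
        exact_mod_cast h2
    _ ≤ Real.exp l := Nat.floor_le (Real.exp_pos l).le

/-- pairs of near frequencies have small coefficients -/
theorem near_le {a a' β : ℝ} (ha' : 0 < a') (haa : a' < a)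
    (hβ : β = (a / a' - 1) / (4 * (a / a' + 1))) {p q : ℕ} (hp : 1 ≤ p) (hq : 1 ≤ q)
    (h : |a * Real.log p - a' * Real.log q| ≤ a') :
    (Real.log p * (p : ℝ) ^ (-(1 / 2 : ℝ))) * (Real.log q * (q : ℝ) ^ (-(1 / 2 : ℝ))) ≤
      Real.exp 1 / β ^ 2 * (1 / (p : ℝ) ^ (1 + (a / a' - 1) / 4)) := by
  set α : ℝ := a / a' with hα
  have hα1 : 1 < α := by rw [hα, one_lt_div ha']; exact haa
  have hβ0 : 0 < β := by rw [hβ]; apply div_pos <;> linarith
  have hβ4 : β < 1 / 4 := by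
    rw [hβ, div_lt_div_iff₀ (by linarith) (by norm_num)]
    linarith
  have hp0 : (0 : ℝ) < p := by exact_mod_cast hp
  have hq0 : (0 : ℝ) < q := by exact_mod_cast hq
  have hp1 : (1 : ℝ) ≤ p := by exact_mod_cast hp
  have hq1 : (1 : ℝ) ≤ q := by exact_mod_cast hq
  have hG : ∀ x : ℝ, 1 ≤ x → Real.log x * x ^ (-(1 / 2 : ℝ)) ≤ 1 / β * x ^ (-(1 / 2 - β)) := by
    intro x hx
    have hx0 : 0 < x := by linarith
    have h1 := Real.log_le_rpow_div hx0.le hβ0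
    calc Real.log x * x ^ (-(1 / 2 : ℝ)) ≤ x ^ β / β * x ^ (-(1 / 2 : ℝ)) := by gcongr
      _ = 1 / β * (x ^ β * x ^ (-(1 / 2 : ℝ))) := by ring
      _ = 1 / β * x ^ (-(1 / 2 - β)) := by
        rw [← Real.rpow_add hx0]
        congr 2
        ring
  -- lower bound of `log q`
  have hlq : α * Real.log p - 1 ≤ Real.log q := by
    have h1 := (abs_le.1 h).2
    have h2 : a' * (α * Real.log p - 1) ≤ a' * Real.log q := by
      have : a' * (α * Real.log p) = a * Real.log p := by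
        rw [hα, ← mul_assoc, mul_div_cancel₀ _ ha'.ne']
      linarith
    exact le_of_mul_le_mul_left h2 ha'
  have hq2 : (q : ℝ) ^ (-(1 / 2 - β)) ≤ Real.exp 1 * (p : ℝ) ^ (-(α * (1 / 2 - β))) := by
    rw [Real.rpow_def_of_pos hq0, Real.rpow_def_of_pos hp0, ← Real.exp_add]
    apply Real.exp_le_exp.2
    have h3 : (α * Real.log p - 1) * (1 / 2 - β) ≤ Real.log q * (1 / 2 - β) :=
      mul_le_mul_of_nonneg_right hlq (by linarith)
    linarith
  have h0p : 0 ≤ Real.log p := Real.log_nonneg hp1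
  have h0q : 0 ≤ Real.log q := Real.log_nonneg hq1
  have hexp : -(1 / 2 - β) + -(α * (1 / 2 - β)) = -(1 + (α - 1) / 4) := by
    have : (1 + α) * β = (α - 1) / 4 := by
      rw [hβ]
      field_simp
      ring
    linarith
  calc (Real.log p * (p : ℝ) ^ (-(1 / 2 : ℝ))) * (Real.log q * (q : ℝ) ^ (-(1 / 2 : ℝ)))
      ≤ (1 / β * (p : ℝ) ^ (-(1 / 2 - β))) * (1 / β * (Real.exp 1 * (p : ℝ) ^ (-(α * (1 / 2 - β))))) := by
        apply mul_le_mul (hG p hp1) _ (by positivity) (by positivity)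
        exact (hG q hq1).trans (mul_le_mul_of_nonneg_left hq2 (by positivity))
    _ = Real.exp 1 / β ^ 2 * ((p : ℝ) ^ (-(1 / 2 - β)) * (p : ℝ) ^ (-(α * (1 / 2 - β)))) := by
        field_simp
    _ = Real.exp 1 / β ^ 2 * (1 / (p : ℝ) ^ (1 + (α - 1) / 4)) := by
        rw [← Real.rpow_add hp0, hexp, Real.rpow_neg hp0.le, one_div]

theorem px_lt (π π' : PrimChar) (a a' δ ε : ℝ) (ha' : 0 < a') (haa : a' < a) (hδ : 0 < δ)
    (hδa' : δ ≤ a' / 16) (hε : 0 < ε) : ∃ T₀ : ℝ, ∀ T τ τ' : ℝ, T₀ ≤ T →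
    ‖∫ t in (5 * T / 4)..(7 * T / 4), Pp π (δ * Real.log T / a) (a * t + τ) *
      (starRingEnd ℂ) (Pp π' (δ * Real.log T / a') (a' * t + τ'))‖ ≤ ε * T := by
  have ha : 0 < a := by linarith
  obtain ⟨β, hβ⟩ : ∃ β : ℝ, β = (a / a' - 1) / (4 * (a / a' + 1)) := ⟨_, rfl⟩
  have hα1 : 1 < a / a' := by rw [one_lt_div ha']; exact haa
  have hβ0 : 0 < β := by rw [hβ]; apply div_pos <;> linarith
  have hsum : Summable (fun n : ℕ => 1 / (n : ℝ) ^ (1 + (a / a' - 1) / 4)) :=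
    Real.summable_one_div_nat_rpow.2 (by linarith)
  set Z : ℝ := ∑' n : ℕ, 1 / (n : ℝ) ^ (1 + (a / a' - 1) / 4) with hZ
  have hZ0 : 0 ≤ Z := tsum_nonneg (fun n => by positivity)
  set K : ℝ := Real.exp 1 / β ^ 2 * Z * (a * a') / δ ^ 2 with hK
  have hK0 : 0 ≤ K := by rw [hK]; positivity
  have ev : ∀ᶠ T : ℝ in Filter.atTop, 1 ≤ T ∧ 1 ≤ Real.log T ∧ T ^ (-(3 / 8 : ℝ)) ≤ ε / 4 ∧
      T ^ (-(1 / 2 : ℝ)) ≤ a' ∧ T ^ (-(7 / 16 : ℝ)) ≤ a' / 2 ∧ K ≤ ε * Real.log T := by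
    have t1 := tendsto_rpow_neg_atTop (show (0 : ℝ) < 3 / 8 by norm_num)
    have t2 := tendsto_rpow_neg_atTop (show (0 : ℝ) < 1 / 2 by norm_num)
    have t3 := tendsto_rpow_neg_atTop (show (0 : ℝ) < 7 / 16 by norm_num)
    filter_upwards [Filter.eventually_ge_atTop 1, Real.tendsto_log_atTop.eventually_ge_atTop 1,
      t1.eventually_le_const (show (0 : ℝ) < ε / 4 by positivity),
      t2.eventually_le_const (show (0 : ℝ) < a' by positivity),
      t3.eventually_le_const (show (0 : ℝ) < a' / 2 by positivity),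
      (Real.tendsto_log_atTop.const_mul_atTop hε).eventually_ge_atTop K] with T h1 h2 h3 h4 h5 h6
    exact ⟨h1, h2, h3, h4, h5, h6⟩
  obtain ⟨T₀, hT₀⟩ := Filter.eventually_atTop.1 ev
  refine ⟨T₀, fun T τ τ' hT => ?_⟩
  obtain ⟨hT1, hlog, hE1, hE2, hE3, hE4⟩ := hT₀ T hT
  have hT0 : 0 < T := by linarith
  set l : ℝ := δ * Real.log T / a with hl
  set l' : ℝ := δ * Real.log T / a' with hl'
  have hl0 : 0 < l := by rw [hl]; positivity
  have hl'0 : 0 < l' := by rw [hl']; positivity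
  have hexp : ∀ b : ℝ, 0 < b → δ ≤ b / 16 → Real.exp (δ * Real.log T / b) ≤ T ^ (1 / 16 : ℝ) := by
    intro b hb hδb
    rw [Real.rpow_def_of_pos hT0]
    apply Real.exp_le_exp.2
    rw [div_le_iff₀ hb]
    have := mul_le_mul_of_nonneg_right hδb (show 0 ≤ Real.log T by linarith)
    linarith
  have hel := hexp a ha (by linarith)
  have hel' := hexp a' ha' hδa'
  rw [← hl] at hel
  rw [← hl'] at hel'
  simp_rw [Pp_eq]
  have hg : 0 < T ^ (-(1 / 2 : ℝ)) := by positivity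
  refine (expand_le (SS l) (SS l') (cc π l τ) (cc π' l' τ') (fun p : ℕ => a * Real.log p)
    (fun p : ℕ => a' * Real.log p) (T ^ (-(1 / 2 : ℝ))) (5 * T / 4) (7 * T / 4) hg
    (by linarith)).trans ?_
  have hfar : 2 / T ^ (-(1 / 2 : ℝ)) * ((∑ p ∈ SS l, ‖cc π l τ p‖) * ∑ q ∈ SS l', ‖cc π' l' τ' q‖) ≤
      ε / 2 * T := by
    have h1 : (∑ p ∈ SS l, ‖cc π l τ p‖) * ∑ q ∈ SS l', ‖cc π' l' τ' q‖ ≤
        T ^ (1 / 16 : ℝ) * T ^ (1 / 16 : ℝ) := by
      apply mul_le_mul ((sum_cc_le π l τ hl0).trans hel) ((sum_cc_le π' l' τ' hl'0).trans hel')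
        (Finset.sum_nonneg (fun _ _ => norm_nonneg _)) (by positivity)
    calc 2 / T ^ (-(1 / 2 : ℝ)) * ((∑ p ∈ SS l, ‖cc π l τ p‖) * ∑ q ∈ SS l', ‖cc π' l' τ' q‖)
        ≤ 2 / T ^ (-(1 / 2 : ℝ)) * (T ^ (1 / 16 : ℝ) * T ^ (1 / 16 : ℝ)) := by gcongr
      _ = 2 * (T ^ (-(3 / 8 : ℝ)) * T) := by
        rw [div_mul_eq_mul_div, div_eq_iff hg.ne']
        have e1 : T ^ (-(3 / 8 : ℝ)) * T = T ^ (-(3 / 8 : ℝ) + 1) := by
          rw [Real.rpow_add hT0, Real.rpow_one]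
        rw [e1, ← Real.rpow_add hT0, mul_assoc, ← Real.rpow_add hT0]
        norm_num
      _ ≤ 2 * (ε / 4 * T) := by gcongr
      _ = ε / 2 * T := by ring
  -- near pairs
  have hnear1 : ∀ p ∈ SS l, ∑ q ∈ (SS l').filter
      (fun q : ℕ => |a * Real.log p - a' * Real.log q| < T ^ (-(1 / 2 : ℝ))), ‖cc π l τ p‖ * ‖cc π' l' τ' q‖ ≤
      1 / (l * l') * (Real.exp 1 / β ^ 2) * (1 / (p : ℝ) ^ (1 + (a / a' - 1) / 4)) := by
    intro p hp
    unfold SS at hp
    rw [Finset.mem_filter, Finset.mem_Icc] at hp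
    have hb0 : 0 ≤ 1 / (l * l') * (Real.exp 1 / β ^ 2) * (1 / (p : ℝ) ^ (1 + (a / a' - 1) / 4)) := by
      positivity
    have hcard : ((SS l').filter
        (fun q : ℕ => |a * Real.log p - a' * Real.log q| < T ^ (-(1 / 2 : ℝ)))).card ≤ 1 := by
      rw [Finset.card_le_one]
      intro q hq r hr
      unfold SS at hq hr
      rw [Finset.mem_filter, Finset.mem_filter, Finset.mem_Icc] at hq hr
      by_contra hne
      have h1 := log_gap hq.1.1.1 hr.1.1.1 hq.1.1.2 hr.1.1.2 hne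
      have hN : (⌊Real.exp l'⌋₊ : ℝ) ≤ T ^ (1 / 16 : ℝ) :=
        (Nat.floor_le (Real.exp_pos l').le).trans hel'
      have hN0 : (0 : ℝ) < (⌊Real.exp l'⌋₊ : ℝ) := by
        have : 1 ≤ ⌊Real.exp l'⌋₊ := hq.1.1.1.trans hq.1.1.2
        exact_mod_cast this
      have h2 : 1 / T ^ (1 / 16 : ℝ) ≤ 1 / (⌊Real.exp l'⌋₊ : ℝ) := one_div_le_one_div_of_le hN0 hN
      have h3 : a' * |Real.log q - Real.log r| < 2 * T ^ (-(1 / 2 : ℝ)) := by
        have e0 : a' * |Real.log q - Real.log r| = |a' * (Real.log q - Real.log r)| := by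
          rw [abs_mul, abs_of_pos ha']
        rw [e0]
        have e1 : a' * (Real.log q - Real.log r) = (a * Real.log p - a' * Real.log r) -
            (a * Real.log p - a' * Real.log q) := by ring
        rw [e1]
        refine (abs_sub _ _).trans_lt ?_
        linarith [hq.2, hr.2]
      have h4 : a' * (1 / T ^ (1 / 16 : ℝ)) ≤ a' * |Real.log q - Real.log r| :=
        mul_le_mul_of_nonneg_left (h2.trans h1) ha'.le
      have h5 : 2 * T ^ (-(1 / 2 : ℝ)) ≤ a' * (1 / T ^ (1 / 16 : ℝ)) := by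
        have e2 : T ^ (-(1 / 2 : ℝ)) = T ^ (-(7 / 16 : ℝ)) * T ^ (-(1 / 16 : ℝ)) := by
          rw [← Real.rpow_add hT0]
          norm_num
        have e3 : 1 / T ^ (1 / 16 : ℝ) = T ^ (-(1 / 16 : ℝ)) := by
          rw [Real.rpow_neg hT0.le, one_div]
        rw [e2, e3]
        calc 2 * (T ^ (-(7 / 16 : ℝ)) * T ^ (-(1 / 16 : ℝ))) ≤
            2 * (a' / 2 * T ^ (-(1 / 16 : ℝ))) := by gcongr
          _ = a' * T ^ (-(1 / 16 : ℝ)) := by ring
      linarith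
    have hterm : ∀ q ∈ (SS l').filter
        (fun q : ℕ => |a * Real.log p - a' * Real.log q| < T ^ (-(1 / 2 : ℝ))),
        ‖cc π l τ p‖ * ‖cc π' l' τ' q‖ ≤
        1 / (l * l') * (Real.exp 1 / β ^ 2) * (1 / (p : ℝ) ^ (1 + (a / a' - 1) / 4)) := by
      intro q hq
      unfold SS at hq
      rw [Finset.mem_filter, Finset.mem_filter, Finset.mem_Icc] at hq
      have h1 := near_le ha' haa hβ hp.1.1 hq.1.1.1 (hq.2.le.trans hE2)
      have h2 := cc_le π l τ p hl0 hp.1.1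
      have h3 := cc_le π' l' τ' q hl'0 hq.1.1.1
      calc ‖cc π l τ p‖ * ‖cc π' l' τ' q‖ ≤ (1 / l * (Real.log p * (p : ℝ) ^ (-(1 / 2 : ℝ)))) *
            (1 / l' * (Real.log q * (q : ℝ) ^ (-(1 / 2 : ℝ)))) := by
            apply mul_le_mul h2 h3 (norm_nonneg _)
            exact (norm_nonneg _).trans h2
        _ = 1 / (l * l') * ((Real.log p * (p : ℝ) ^ (-(1 / 2 : ℝ))) *
            (Real.log q * (q : ℝ) ^ (-(1 / 2 : ℝ)))) := by
            field_simp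
        _ ≤ 1 / (l * l') * (Real.exp 1 / β ^ 2 * (1 / (p : ℝ) ^ (1 + (a / a' - 1) / 4))) := by
            gcongr
        _ = _ := by ring
    refine (Finset.sum_le_card_nsmul _ _ _ hterm).trans ?_
    rw [nsmul_eq_mul]
    have : ((((SS l').filter (fun q : ℕ => |a * Real.log p - a' * Real.log q| <
        T ^ (-(1 / 2 : ℝ)))).card : ℕ) : ℝ) ≤ 1 := by exact_mod_cast hcard
    calc _ ≤ 1 * (1 / (l * l') * (Real.exp 1 / β ^ 2) * (1 / (p : ℝ) ^ (1 + (a / a' - 1) / 4))) :=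
          mul_le_mul_of_nonneg_right this hb0
      _ = _ := one_mul _
  have hnear : (7 * T / 4 - 5 * T / 4) * ∑ p ∈ SS l, ∑ q ∈ (SS l').filter
      (fun q : ℕ => |a * Real.log p - a' * Real.log q| < T ^ (-(1 / 2 : ℝ))), ‖cc π l τ p‖ * ‖cc π' l' τ' q‖ ≤
      ε / 2 * T := by
    have h1 : ∑ p ∈ SS l, (1 / (p : ℝ) ^ (1 + (a / a' - 1) / 4)) ≤ Z :=
      hsum.sum_le_tsum _ (fun _ _ => by positivity)
    have h2 : ∑ p ∈ SS l, ∑ q ∈ (SS l').filter
        (fun q : ℕ => |a * Real.log p - a' * Real.log q| < T ^ (-(1 / 2 : ℝ))), ‖cc π l τ p‖ * ‖cc π' l' τ' q‖ ≤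
        1 / (l * l') * (Real.exp 1 / β ^ 2) * Z := by
      refine (Finset.sum_le_sum hnear1).trans ?_
      rw [← Finset.mul_sum]
      gcongr
    have h3 : 1 / (l * l') * (Real.exp 1 / β ^ 2) * Z = K / (Real.log T) ^ 2 := by
      rw [hK, hl, hl']
      field_simp
    have h4 : K / (Real.log T) ^ 2 ≤ ε := by
      rw [div_le_iff₀ (by positivity)]
      have : ε * Real.log T * 1 ≤ ε * Real.log T * Real.log T := by gcongr
      calc K ≤ ε * Real.log T := hE4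
        _ ≤ ε * Real.log T ^ 2 := by rw [pow_two]; linarith
    rw [h3] at h2
    have h5 : 7 * T / 4 - 5 * T / 4 = T / 2 := by ring
    rw [h5]
    calc T / 2 * _ ≤ T / 2 * ε := mul_le_mul_of_nonneg_left (h2.trans h4) (by linarith)
      _ = ε / 2 * T := by ring
  linarith

theorem px : T_PX := by
  intro π π' a a' δ ε ha ha' hne hδ hδa hδa' hε
  rcases lt_or_gt_of_ne hne with h | h
  · obtain ⟨T₀, hT₀⟩ := px_lt π' π a' a δ ε ha h hδ hδa hε
    refine ⟨T₀, fun T τ τ' hT => ?_⟩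
    have h2 : (∫ t in (5 * T / 4)..(7 * T / 4), Pp π (δ * Real.log T / a) (a * t + τ) *
        (starRingEnd ℂ) (Pp π' (δ * Real.log T / a') (a' * t + τ'))) =
        (starRingEnd ℂ) (∫ t in (5 * T / 4)..(7 * T / 4), Pp π' (δ * Real.log T / a') (a' * t + τ') *
          (starRingEnd ℂ) (Pp π (δ * Real.log T / a) (a * t + τ))) := by
      rw [← intervalIntegral.intervalIntegral_conj]
      apply intervalIntegral.integral_congr
      intro t _
      simp only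
      rw [map_mul, Complex.conj_conj, mul_comm]
    rw [h2, RCLike.norm_conj]
    exact hT₀ T τ' τ hT
  · exact px_lt π π' a a' δ ε ha' h hδ hδa' hε

end Pool.Agent.H33.PP
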