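import Pool.Agent.H33.PP.Core

/-!
# Residues of primary pseudoperfect numbers
-/

set_option autoImplicit false

open Finset

namespace Pool.Agent.H33.PP

/-- `N` is a primary pseudoperfect number. -/
def IsPPN (N : ℕ) : Prop :=
  1 < N ∧ (∑ p ∈ N.primeFactors, (1 : ℚ) / (p : ℚ)) + 1 / (N : ℚ) = 1

theorem IsPPN.sum_div {N : ℕ} (h : IsPPN N) : (∑ p ∈ N.primeFactors, N / p) + 1 = N := by
  obtain ⟨h1, h2⟩ := h
  have hN : (N : ℚ) ≠ 0 := by
    have : N ≠ 0 := by omega
    exact_mod_cast this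
  have h3 : ((∑ p ∈ N.primeFactors, N / p : ℕ) : ℚ) + 1 = N := by
    have h4 : (N : ℚ) * ((∑ p ∈ N.primeFactors, (1 : ℚ) / (p : ℚ)) + 1 / (N : ℚ)) = N := by
      rw [h2, mul_one]
    rw [mul_add, mul_one_div_cancel hN, Finset.mul_sum] at h4
    rw [← h4, Nat.cast_sum]
    congr 1
    refine Finset.sum_congr rfl fun p hp => ?_
    rw [Nat.cast_div (Nat.dvd_of_mem_primeFactors hp)
      (by exact_mod_cast (Nat.prime_of_mem_primeFactors hp).ne_zero), mul_one_div]
  exact_mod_cast h3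

theorem IsPPN.squarefree {N : ℕ} (h : IsPPN N) : Squarefree N := by
  rw [Nat.squarefree_iff_prime_squarefree]
  intro p hp hpp
  have h1 := h.sum_div
  have hN0 : N ≠ 0 := by have := h.1; omega
  have h2 : p ∣ ∑ q ∈ N.primeFactors, N / q := by
    refine Finset.dvd_sum fun q hq => ?_
    have hqd := Nat.dvd_of_mem_primeFactors hq
    have hqp := Nat.prime_of_mem_primeFactors hq
    obtain ⟨c, hc⟩ := hqd
    rw [hc, Nat.mul_div_cancel_left _ hqp.pos]
    by_cases hpq : p = q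
    · subst hpq
      rw [hc] at hpp
      exact Nat.dvd_of_mul_dvd_mul_left hp.pos hpp
    · have h3 : p ∣ q * c := hc ▸ (dvd_trans (dvd_mul_right p p) hpp)
      rcases hp.dvd_mul.1 h3 with h4 | h4
      · exact absurd ((Nat.prime_dvd_prime_iff_eq hp hqp).1 h4) hpq
      · exact h4
  have h3 : p ∣ N := dvd_trans (dvd_mul_right p p) hpp
  have h4 : p ∣ 1 := (Nat.dvd_add_right h2).1 (by rw [h1]; exact h3)
  exact hp.one_lt.ne' (Nat.dvd_one.1 h4)

theorem IsPPN.prod {N : ℕ} (h : IsPPN N) : ∏ p ∈ N.primeFactors, p = N :=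
  Nat.prod_primeFactors_of_squarefree h.squarefree

theorem IsPPN.dv {N : ℕ} (h : IsPPN N) : dv N.primeFactors + 1 = N := by
  conv_rhs => rw [← h.sum_div]
  congr 1
  unfold Pool.Agent.H33.PP.dv
  refine Finset.sum_congr rfl fun p hp => ?_
  have h1 := Finset.mul_prod_erase N.primeFactors (fun q => q) hp
  rw [h.prod] at h1
  conv_rhs => rw [← h1]
  rw [Nat.mul_div_cancel_left _ (Nat.prime_of_mem_primeFactors hp).pos]

theorem dv_insert (s : Finset ℕ) (a : ℕ) (ha : a ∉ s) :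
    dv (insert a s) = (∏ p ∈ s, p) + a * dv s := by
  classical
  unfold dv
  rw [Finset.sum_insert ha, Finset.erase_insert ha, Finset.mul_sum]
  congr 1
  refine Finset.sum_congr rfl fun p hp => ?_
  have hpa : a ≠ p := by
    rintro rfl
    exact ha hp
  rw [Finset.erase_insert_of_ne hpa, Finset.prod_insert (fun h => ha (Finset.mem_of_mem_erase h))]

theorem IsPPN.mod_even {N : ℕ} (h : IsPPN N) (h2 : 2 ∣ N) :
    (N + 2) % 32 = (4 * N.primeFactors.card) % 32 := by
  classical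
  have hN0 : N ≠ 0 := by have := h.1; omega
  have hmem : 2 ∈ N.primeFactors := Nat.mem_primeFactors.2 ⟨Nat.prime_two, h2, hN0⟩
  obtain ⟨s, hs⟩ : ∃ s, s = N.primeFactors.erase 2 := ⟨_, rfl⟩
  have hins : insert 2 s = N.primeFactors := by rw [hs, Finset.insert_erase hmem]
  have h2s : 2 ∉ s := by rw [hs]; exact Finset.notMem_erase _ _
  have hps : ∀ p ∈ s, p.Prime ∧ p ≠ 2 := by
    intro p hp
    rw [hs] at hp
    exact ⟨Nat.prime_of_mem_primeFactors (Finset.mem_of_mem_erase hp), Finset.ne_of_mem_erase hp⟩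
  have h3 := h.dv
  have h4 := h.prod
  rw [← hins, dv_insert s 2 h2s] at h3
  rw [← hins, Finset.prod_insert h2s] at h4
  have h5 := core_even s hps (by omega)
  rw [← hins, Finset.card_insert_of_notMem h2s]
  omega

theorem IsPPN.mod_nine {N : ℕ} (h : IsPPN N) (h3 : 3 ∣ N) : N % 9 = 6 := by
  classical
  have hN0 : N ≠ 0 := by have := h.1; omega
  have hmem : 3 ∈ N.primeFactors := Nat.mem_primeFactors.2 ⟨Nat.prime_three, h3, hN0⟩
  obtain ⟨c, hc⟩ := dv_modp N.primeFactors 3 hmem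
  have h1 := Finset.mul_prod_erase N.primeFactors (fun q => q) hmem
  have h4 := h.dv
  rw [h.prod] at h1
  have h5 : (fun q : ℕ => q) 3 = 3 := rfl
  generalize (∏ q ∈ N.primeFactors.erase 3, q) = L at *
  have h1' : 3 * L = N := h1
  omega

theorem IsPPN.mod_six {N : ℕ} (h : IsPPN N) (h6 : 6 ∣ N) :
    (N + 66) % 288 = (36 * N.primeFactors.card) % 288 := by
  have h1 := h.mod_even (dvd_trans (by norm_num) h6)
  have h2 := h.mod_nine (dvd_trans (by norm_num) h6)
  omega

theorem IsPPN.card_odd {N : ℕ} (h : IsPPN N) (h2 : ¬ 2 ∣ N) : 8 ∣ N.primeFactors.card := by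
  have h3 := h.dv
  have h4 := h.prod
  have h5 := core_odd N.primeFactors (fun p hp =>
    ⟨Nat.prime_of_mem_primeFactors hp, by
      rintro rfl
      exact h2 (Nat.dvd_of_mem_primeFactors hp)⟩) (by omega)
  exact Nat.dvd_of_mod_eq_zero h5

end Pool.Agent.H33.PP
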