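import Pool.Agent.H87.PP.SEG

/-!
# The logarithmic kernel (`T_SEL`)
-/

set_option autoImplicit false

open Complex MeasureTheory Set

namespace Pool.Agent.H33.PP

open Pool.Agent.H74.PP Pool.Agent.H87.PP

theorem int_half (a x₁ x₂ : ℝ) :
    IntegrableOn (fun x : ℝ => |x - a| ^ (-(1 / 2 : ℝ))) (Icc x₁ x₂) := by
  have h0 : ∀ M : ℝ, 0 ≤ M → IntervalIntegrable (fun t : ℝ => |t| ^ (-(1 / 2 : ℝ))) volume 0 M := by
    intro M hM
    have h := intervalIntegral.intervalIntegrable_rpow' (a := 0) (b := M) (r := -(1 / 2 : ℝ))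
      (by norm_num)
    refine h.congr ?_
    intro t ht
    rw [uIoc_of_le hM] at ht
    simp only
    rw [abs_of_pos ht.1]
  have h1 : ∀ M : ℝ, IntervalIntegrable (fun t : ℝ => |t| ^ (-(1 / 2 : ℝ))) volume 0 M := by
    intro M
    rcases le_total 0 M with h | h
    · exact h0 M h
    · have h2 := h0 (-M) (by linarith)
      rw [IntervalIntegrable.iff_comp_neg] at h2
      simpa using h2
  have h2 : IntervalIntegrable (fun t : ℝ => |t| ^ (-(1 / 2 : ℝ))) volume (x₁ - a) (x₂ - a) :=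
    (h1 _).symm.trans (h1 _)
  have h3 := h2.comp_sub_right a
  rw [sub_add_cancel, sub_add_cancel] at h3
  rcases le_or_gt x₁ x₂ with h | h
  · rwa [intervalIntegrable_iff_integrableOn_Icc_of_le h] at h3
  · rw [Icc_eq_empty (not_le.2 h)]
    exact integrableOn_empty

theorem norm_z (x u : ℝ) (ρ : ℂ) :
    ‖(x : ℂ) + u * I - ρ‖ = √((x - ρ.re) ^ 2 + (u - ρ.im) ^ 2) := by
  rw [Complex.norm_eq_sqrt_sq_add_sq]
  simp

theorem volume_rect (x₁ x₂ u₁ u₂ : ℝ) :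
    (volume : Measure (ℝ × ℝ)).restrict (Icc x₁ x₂ ×ˢ Icc u₁ u₂) =
      (volume.restrict (Icc x₁ x₂)).prod (volume.restrict (Icc u₁ u₂)) := by
  rw [Measure.volume_eq_prod, Measure.prod_restrict]

theorem ae_ne_fst (a x₁ x₂ u₁ u₂ : ℝ) :
    ∀ᵐ p : ℝ × ℝ ∂((volume.restrict (Icc x₁ x₂)).prod (volume.restrict (Icc u₁ u₂))), p.1 ≠ a := by
  have h : ∀ᵐ x : ℝ ∂(volume.restrict (Icc x₁ x₂)), x ≠ a :=
    ae_restrict_of_ae (Measure.ae_ne volume a)
  exact Measure.quasiMeasurePreserving_fst.ae h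

theorem ae_ne_snd (b x₁ x₂ u₁ u₂ : ℝ) :
    ∀ᵐ p : ℝ × ℝ ∂((volume.restrict (Icc x₁ x₂)).prod (volume.restrict (Icc u₁ u₂))), p.2 ≠ b := by
  have h : ∀ᵐ x : ℝ ∂(volume.restrict (Icc u₁ u₂)), x ≠ b :=
    ae_restrict_of_ae (Measure.ae_ne volume b)
  exact Measure.quasiMeasurePreserving_snd.ae h

/-- the inverse distance is integrable -/
theorem int_inv (ρ : ℂ) (x₁ x₂ u₁ u₂ : ℝ) :
    IntegrableOn (fun p : ℝ × ℝ => 1 / √((p.1 - ρ.re) ^ 2 + (p.2 - ρ.im) ^ 2))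
      (Icc x₁ x₂ ×ˢ Icc u₁ u₂) := by
  have h1 := (int_half ρ.re x₁ x₂).mul_prod (int_half ρ.im u₁ u₂)
  rw [IntegrableOn, volume_rect]
  refine h1.mono' ?_ ?_
  · apply Measurable.aestronglyMeasurable
    fun_prop
  · filter_upwards [ae_ne_fst ρ.re x₁ x₂ u₁ u₂, ae_ne_snd ρ.im x₁ x₂ u₁ u₂] with p hp1 hp2
    have hs : 0 < |p.1 - ρ.re| := abs_pos.2 (sub_ne_zero.2 hp1)
    have ht : 0 < |p.2 - ρ.im| := abs_pos.2 (sub_ne_zero.2 hp2)
    rw [← sq_abs (p.1 - ρ.re), ← sq_abs (p.2 - ρ.im)]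
    set s := |p.1 - ρ.re|
    set t := |p.2 - ρ.im|
    rw [Real.norm_of_nonneg (by positivity), Real.rpow_neg hs.le, Real.rpow_neg ht.le,
      ← Real.sqrt_eq_rpow, ← Real.sqrt_eq_rpow, ← mul_inv, ← Real.sqrt_mul hs.le, one_div]
    apply inv_anti₀ (by positivity)
    apply Real.sqrt_le_sqrt
    nlinarith [sq_nonneg (s - t), mul_pos hs ht]

theorem abs_log_le {n : ℝ} (hn : 0 ≤ n) : |Real.log n| ≤ 1 / n + n := by
  rcases hn.eq_or_lt with h | h
  · rw [← h]; simp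
  · have h1 := Real.log_le_sub_one_of_pos h
    have h2 := Real.log_le_sub_one_of_pos (inv_pos.2 h)
    rw [Real.log_inv] at h2
    have h3 : 0 < n⁻¹ := inv_pos.2 h
    rw [abs_le, one_div]
    constructor <;> linarith

theorem int_log (ρ : ℂ) (x₁ x₂ u₁ u₂ : ℝ) :
    IntegrableOn (fun p : ℝ × ℝ => Real.log ‖(p.1 : ℂ) + p.2 * I - ρ‖)
      (Icc x₁ x₂ ×ˢ Icc u₁ u₂) := by
  have hcpt : IsCompact (Icc x₁ x₂ ×ˢ Icc u₁ u₂) := isCompact_Icc.prod isCompact_Icc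
  have h1 : IntegrableOn (fun p : ℝ × ℝ => √((p.1 - ρ.re) ^ 2 + (p.2 - ρ.im) ^ 2))
      (Icc x₁ x₂ ×ˢ Icc u₁ u₂) := by
    apply ContinuousOn.integrableOn_compact hcpt
    fun_prop
  refine ((int_inv ρ x₁ x₂ u₁ u₂).add h1).mono' ?_ ?_
  · apply Measurable.aestronglyMeasurable
    fun_prop
  · refine Filter.Eventually.of_forall fun p => ?_
    rw [norm_z, Real.norm_eq_abs]
    exact abs_log_le (Real.sqrt_nonneg _)

theorem log_z (x u : ℝ) (ρ : ℂ) :
    Real.log ‖(x : ℂ) + u * I - ρ‖ = Real.log ((x - ρ.re) ^ 2 + (u - ρ.im) ^ 2) / 2 := by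
  rw [norm_z, Real.log_sqrt (by positivity)]

theorem deriv_log_x (x u : ℝ) (ρ : ℂ) (h : 0 < (x - ρ.re) ^ 2 + (u - ρ.im) ^ 2) :
    HasDerivAt (fun x : ℝ => ((Real.log ‖(x : ℂ) + u * I - ρ‖ : ℝ) : ℂ))
      (((x - ρ.re) / ((x - ρ.re) ^ 2 + (u - ρ.im) ^ 2) : ℝ) : ℂ) x := by
  simp_rw [log_z]
  apply HasDerivAt.ofReal_comp
  have h1 : HasDerivAt (fun x : ℝ => (x - ρ.re) ^ 2 + (u - ρ.im) ^ 2) (2 * (x - ρ.re)) x := by
    have h2 := (((hasDerivAt_id x).sub_const ρ.re).pow 2).add_const ((u - ρ.im) ^ 2)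
    simpa using h2
  refine ((h1.log h.ne').div_const 2).congr_deriv ?_
  field_simp

theorem deriv_log_u (x u : ℝ) (ρ : ℂ) (h : 0 < (x - ρ.re) ^ 2 + (u - ρ.im) ^ 2) :
    HasDerivAt (fun u : ℝ => ((Real.log ‖(x : ℂ) + u * I - ρ‖ : ℝ) : ℂ))
      (((u - ρ.im) / ((x - ρ.re) ^ 2 + (u - ρ.im) ^ 2) : ℝ) : ℂ) u := by
  simp_rw [log_z]
  apply HasDerivAt.ofReal_comp
  have h1 : HasDerivAt (fun u : ℝ => (x - ρ.re) ^ 2 + (u - ρ.im) ^ 2) (2 * (u - ρ.im)) u := by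
    have h2 := (((hasDerivAt_id u).sub_const ρ.im).pow 2).const_add ((x - ρ.re) ^ 2)
    simpa using h2
  refine ((h1.log h.ne').div_const 2).congr_deriv ?_
  field_simp

/-- one integration by parts -/
theorem ibp1 {a b : ℝ} (hab : a ≤ b) {H H1 Φ Φ1 : ℝ → ℂ}
    (hH : ∀ x ∈ Icc a b, HasDerivAt H (H1 x) x)
    (hΦ : ∀ x ∈ Icc a b, HasDerivAt Φ (Φ1 x) x)
    (cH1 : ContinuousOn H1 (Icc a b)) (cΦ1 : ContinuousOn Φ1 (Icc a b))
    (za : Φ a = 0) (zb : Φ b = 0) :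
    ∫ x in Icc a b, H x * Φ1 x = -∫ x in Icc a b, H1 x * Φ x := by
  have iH1 : IntervalIntegrable H1 volume a b := by
    apply ContinuousOn.intervalIntegrable
    rwa [uIcc_of_le hab]
  have iΦ1 : IntervalIntegrable Φ1 volume a b := by
    apply ContinuousOn.intervalIntegrable
    rwa [uIcc_of_le hab]
  have h1 := intervalIntegral.integral_mul_deriv_eq_deriv_mul (u := H) (v := Φ) (u' := H1)
    (v' := Φ1) (a := a) (b := b) (by rwa [uIcc_of_le hab]) (by rwa [uIcc_of_le hab]) iH1 iΦ1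
  rw [za, zb, mul_zero, mul_zero, sub_zero, zero_sub] at h1
  rw [integral_Icc_eq_integral_Ioc, integral_Icc_eq_integral_Ioc,
    ← intervalIntegral.integral_of_le hab, ← intervalIntegral.integral_of_le hab, h1]

/-- the radial part, in polar coordinates -/
theorem radial (F A B : ℝ → ℝ → ℂ) (a b R₀ : ℝ)
    (hF : ∀ r φ : ℝ, HasDerivAt (fun r : ℝ => F (a + r * Real.cos φ) (b + r * Real.sin φ))
      ((Real.cos φ : ℂ) * A (a + r * Real.cos φ) (b + r * Real.sin φ) +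
        (Real.sin φ : ℂ) * B (a + r * Real.cos φ) (b + r * Real.sin φ)) r)
    (cA : Continuous fun p : ℝ × ℝ => A p.1 p.2) (cB : Continuous fun p : ℝ × ℝ => B p.1 p.2)
    (hR : ∀ r φ : ℝ, R₀ < r → F (a + r * Real.cos φ) (b + r * Real.sin φ) = 0 ∧
      A (a + r * Real.cos φ) (b + r * Real.sin φ) = 0 ∧
      B (a + r * Real.cos φ) (b + r * Real.sin φ) = 0) :
    ∫ p : ℝ × ℝ, ((((p.1 - a) / ((p.1 - a) ^ 2 + (p.2 - b) ^ 2) : ℝ) : ℂ) * A p.1 p.2 +
      (((p.2 - b) / ((p.1 - a) ^ 2 + (p.2 - b) ^ 2) : ℝ) : ℂ) * B p.1 p.2) =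
      -(2 * Real.pi * F a b) := by
  set f : ℝ × ℝ → ℂ := fun p => ((((p.1 - a) / ((p.1 - a) ^ 2 + (p.2 - b) ^ 2) : ℝ) : ℂ) * A p.1 p.2 +
      (((p.2 - b) / ((p.1 - a) ^ 2 + (p.2 - b) ^ 2) : ℝ) : ℂ) * B p.1 p.2) with hf
  set G : ℝ × ℝ → ℂ := fun p => (Real.cos p.2 : ℂ) * A (a + p.1 * Real.cos p.2) (b + p.1 * Real.sin p.2) +
        (Real.sin p.2 : ℂ) * B (a + p.1 * Real.cos p.2) (b + p.1 * Real.sin p.2) with hG
  have cG : Continuous G := by
    have c1 : Continuous fun p : ℝ × ℝ => (a + p.1 * Real.cos p.2, b + p.1 * Real.sin p.2) := by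
      fun_prop
    have c2 := cA.comp c1
    have c3 := cB.comp c1
    have c4 : Continuous fun p : ℝ × ℝ => (Real.cos p.2 : ℂ) :=
      Complex.continuous_ofReal.comp (Real.continuous_cos.comp continuous_snd)
    have c5 : Continuous fun p : ℝ × ℝ => (Real.sin p.2 : ℂ) :=
      Complex.continuous_ofReal.comp (Real.continuous_sin.comp continuous_snd)
    exact (c4.mul c2).add (c5.mul c3)
  have h1 : ∫ p : ℝ × ℝ, f p = ∫ p : ℝ × ℝ, f ((a, b) + p) := (integral_add_left_eq_self f (a, b)).symm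
  rw [h1, ← integral_comp_polarCoord_symm, polarCoord_target]
  have h2 : ∫ p in Ioi (0 : ℝ) ×ˢ Ioo (-Real.pi) Real.pi, p.1 • f ((a, b) + polarCoord.symm p) =
      ∫ p in Ioi (0 : ℝ) ×ˢ Ioo (-Real.pi) Real.pi, G p := by
    apply setIntegral_congr_fun (measurableSet_Ioi.prod measurableSet_Ioo)
    intro p hp
    have hr : 0 < p.1 := hp.1
    have hr' : (p.1 : ℂ) ≠ 0 := by exact_mod_cast hr.ne'
    simp only [hf, hG, polarCoord_symm_apply, Prod.mk_add_mk, add_sub_cancel_left]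
    have e1 : (p.1 * Real.cos p.2) ^ 2 + (p.1 * Real.sin p.2) ^ 2 = p.1 ^ 2 := by
      have := Real.sin_sq_add_cos_sq p.2
      calc (p.1 * Real.cos p.2) ^ 2 + (p.1 * Real.sin p.2) ^ 2 =
          p.1 ^ 2 * (Real.sin p.2 ^ 2 + Real.cos p.2 ^ 2) := by ring
        _ = p.1 ^ 2 := by rw [this, mul_one]
    rw [e1, Complex.real_smul]
    push_cast
    field_simp
  rw [h2]
  -- integrability
  have hint : IntegrableOn G (Ioi (0 : ℝ) ×ˢ Ioo (-Real.pi) Real.pi) := by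
    have i1 : IntegrableOn G (Icc 0 R₀ ×ˢ Icc (-Real.pi) Real.pi) :=
      cG.continuousOn.integrableOn_compact (isCompact_Icc.prod isCompact_Icc)
    refine i1.of_forall_sdiff_eq_zero (measurableSet_Ioi.prod measurableSet_Ioo) ?_
    intro p hp
    have hp1 : R₀ < p.1 := by
      by_contra hcon
      push Not at hcon
      exact hp.2 ⟨⟨(le_of_lt hp.1.1), hcon⟩, ⟨hp.1.2.1.le, hp.1.2.2.le⟩⟩
    obtain ⟨-, h3, h4⟩ := hR p.1 p.2 hp1
    simp only [hG]
    rw [h3, h4, mul_zero, mul_zero, add_zero]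
  have hmeas : (volume : Measure (ℝ × ℝ)).restrict (Ioi (0 : ℝ) ×ˢ Ioo (-Real.pi) Real.pi) =
      (volume.restrict (Ioi (0 : ℝ))).prod (volume.restrict (Ioo (-Real.pi) Real.pi)) := by
    rw [Measure.volume_eq_prod, Measure.prod_restrict]
  rw [IntegrableOn, hmeas] at hint
  rw [hmeas, integral_prod_symm _ hint]
  have h3 : ∀ φ : ℝ, ∫ r in Ioi (0 : ℝ), G (r, φ) = -F a b := by
    intro φ
    have i2 : IntegrableOn (fun r => G (r, φ)) (Ioi (0 : ℝ)) := by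
      have i1 : IntegrableOn (fun r => G (r, φ)) (Icc 0 R₀) :=
        (cG.comp (Continuous.prodMk_left φ)).continuousOn.integrableOn_compact isCompact_Icc
      refine i1.of_forall_sdiff_eq_zero measurableSet_Ioi ?_
      intro r hr
      have hp1 : R₀ < r := by
        by_contra hcon
        push Not at hcon
        exact hr.2 ⟨le_of_lt hr.1, hcon⟩
      obtain ⟨-, h3, h4⟩ := hR r φ hp1
      simp only [hG]
      rw [h3, h4, mul_zero, mul_zero, add_zero]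
    have hlim : Filter.Tendsto (fun r : ℝ => F (a + r * Real.cos φ) (b + r * Real.sin φ))
        Filter.atTop (nhds 0) := by
      apply tendsto_const_nhds.congr'
      filter_upwards [Filter.eventually_gt_atTop R₀] with r hr
      exact (hR r φ hr).1.symm
    have h4 := integral_Ioi_of_hasDerivAt_of_tendsto (f := fun r : ℝ =>
      F (a + r * Real.cos φ) (b + r * Real.sin φ)) (f' := fun r => G (r, φ)) (a := 0) (m := 0)
      (hF 0 φ).continuousAt.continuousWithinAt (fun r _ => hF r φ) i2 hlim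
    rw [h4]
    simp
  simp_rw [h3]
  rw [integral_const]
  have h4 : (volume.restrict (Ioo (-Real.pi) Real.pi)).real univ = 2 * Real.pi := by
    have := Real.pi_pos
    rw [measureReal_restrict_apply MeasurableSet.univ, univ_inter, Real.volume_real_Ioo_of_le
      (by linarith)]
    ring
  rw [h4, Complex.real_smul]
  push_cast
  ring

theorem sel : T_SEL := by
  intro K θ η x₁ x₂ u₁ u₂ ρ hcut hK
  refine ⟨int_log ρ x₁ x₂ u₁ u₂, ?_⟩
  have hx := hcut.hx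
  have hu := hcut.hu
  obtain ⟨θa, θb, θa1, θb1⟩ := cut_zero hcut.cθ hcut.zθ hx
  obtain ⟨ηa, ηb, ηa1, ηb1⟩ := cut_zero hcut.cη hcut.zη hu
  obtain ⟨cθ0, cθ1, cθ2⟩ := cut_cont hcut.cθ
  obtain ⟨cη0, cη1, cη2⟩ := cut_cont hcut.cη
  have hK1 : Differentiable ℂ (deriv K) := by
    rw [← differentiableOn_univ]
    exact (differentiableOn_univ.2 hK).deriv isOpen_univ
  have hK2 : Differentiable ℂ (deriv (deriv K)) := by
    rw [← differentiableOn_univ]
    exact (differentiableOn_univ.2 hK1).deriv isOpen_univ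
  -- the functions
  obtain ⟨P1, hP1⟩ : ∃ A : ℝ → ℝ → ℂ, A = fun (x u : ℝ) => (((deriv (deriv θ) x : ℝ) : ℂ) *
      K (x + u * I) + 2 * (((deriv θ x : ℝ) : ℂ) * deriv K (x + u * I)) +
      ((θ x : ℝ) : ℂ) * deriv (deriv K) (x + u * I)) * ((η u : ℝ) : ℂ) := ⟨_, rfl⟩
  obtain ⟨P2, hP2⟩ : ∃ B : ℝ → ℝ → ℂ, B = fun (x u : ℝ) => (((deriv (deriv η) u : ℝ) : ℂ) *
      K (x + u * I) + 2 * (((deriv η u : ℝ) : ℂ) * (deriv K (x + u * I) * I)) +
      ((η u : ℝ) : ℂ) * (deriv (deriv K) (x + u * I) * I * I)) * ((θ x : ℝ) : ℂ) := ⟨_, rfl⟩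
  obtain ⟨A, hA⟩ : ∃ A : ℝ → ℝ → ℂ, A = fun (x u : ℝ) => (((deriv θ x : ℝ) : ℂ) *
        K (x + u * I) + ((θ x : ℝ) : ℂ) * deriv K (x + u * I)) * ((η u : ℝ) : ℂ) := ⟨_, rfl⟩
  obtain ⟨B, hB⟩ : ∃ B : ℝ → ℝ → ℂ, B = fun (x u : ℝ) => (((deriv η u : ℝ) : ℂ) *
        K (x + u * I) + ((η u : ℝ) : ℂ) * (deriv K (x + u * I) * I)) * ((θ x : ℝ) : ℂ) := ⟨_, rfl⟩
  obtain ⟨Φ, hΦ⟩ : ∃ Φ : ℝ → ℝ → ℂ, Φ = fun (x u : ℝ) => ((θ x : ℝ) : ℂ) * ((η u : ℝ) : ℂ) *
      K (x + u * I) := ⟨_, rfl⟩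
  obtain ⟨L, hL⟩ : ∃ L : ℝ → ℝ → ℂ, L = fun (x u : ℝ) =>
      ((Real.log ‖(x : ℂ) + u * I - ρ‖ : ℝ) : ℂ) := ⟨_, rfl⟩
  obtain ⟨gx, hgx⟩ : ∃ g : ℝ → ℝ → ℂ, g = fun (x u : ℝ) =>
      (((x - ρ.re) / ((x - ρ.re) ^ 2 + (u - ρ.im) ^ 2) : ℝ) : ℂ) := ⟨_, rfl⟩
  obtain ⟨gu, hgu⟩ : ∃ g : ℝ → ℝ → ℂ, g = fun (x u : ℝ) =>
      (((u - ρ.im) / ((x - ρ.re) ^ 2 + (u - ρ.im) ^ 2) : ℝ) : ℂ) := ⟨_, rfl⟩
  have hLp : ∀ x u, Lp K θ η x u = P1 x u + P2 x u := by
    intro x u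
    rw [hP1, hP2]
    simp only [Pool.Agent.H74.PP.Lp]
    simp only [mul_assoc, I_mul_I]
    push_cast
    ring
  -- continuity
  have ctheta : ∀ {f : ℝ → ℝ}, Continuous f → Continuous fun p : ℝ × ℝ => ((f p.1 : ℝ) : ℂ) :=
    fun hf => Complex.continuous_ofReal.comp (hf.comp continuous_fst)
  have ceta : ∀ {f : ℝ → ℝ}, Continuous f → Continuous fun p : ℝ × ℝ => ((f p.2 : ℝ) : ℂ) :=
    fun hf => Complex.continuous_ofReal.comp (hf.comp continuous_snd)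
  have cz : Continuous fun p : ℝ × ℝ => (p.1 : ℂ) + p.2 * I := by fun_prop
  have cP1 : Continuous fun p : ℝ × ℝ => P1 p.1 p.2 := by
    rw [hP1]
    exact ((((ctheta cθ2).mul (hK.continuous.comp cz)).add (continuous_const.mul
      ((ctheta cθ1).mul (hK1.continuous.comp cz)))).add
      ((ctheta cθ0).mul (hK2.continuous.comp cz))).mul (ceta cη0)
  have cP2 : Continuous fun p : ℝ × ℝ => P2 p.1 p.2 := by
    rw [hP2]
    exact ((((ceta cη2).mul (hK.continuous.comp cz)).add (continuous_const.mul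
      ((ceta cη1).mul ((hK1.continuous.comp cz).mul continuous_const)))).add
      ((ceta cη0).mul (((hK2.continuous.comp cz).mul continuous_const).mul
        continuous_const))).mul (ctheta cθ0)
  have cA : Continuous fun p : ℝ × ℝ => A p.1 p.2 := by
    rw [hA]
    exact (((ctheta cθ1).mul (hK.continuous.comp cz)).add
      ((ctheta cθ0).mul (hK1.continuous.comp cz))).mul (ceta cη0)
  have cB : Continuous fun p : ℝ × ℝ => B p.1 p.2 := by
    rw [hB]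
    exact (((ceta cη1).mul (hK.continuous.comp cz)).add
      ((ceta cη0).mul ((hK1.continuous.comp cz).mul continuous_const))).mul (ctheta cθ0)
  have hcpt : IsCompact (Icc x₁ x₂ ×ˢ Icc u₁ u₂) := isCompact_Icc.prod isCompact_Icc
  -- integrability
  have iL : IntegrableOn (fun p : ℝ × ℝ => L p.1 p.2) (Icc x₁ x₂ ×ˢ Icc u₁ u₂) := by
    rw [hL]
    exact (int_log ρ x₁ x₂ u₁ u₂).ofReal
  have hn : ∀ x u : ℝ, ‖gx x u‖ ≤ 1 / √((x - ρ.re) ^ 2 + (u - ρ.im) ^ 2) ∧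
      ‖gu x u‖ ≤ 1 / √((x - ρ.re) ^ 2 + (u - ρ.im) ^ 2) := by
    intro x u
    set R : ℝ := (x - ρ.re) ^ 2 + (u - ρ.im) ^ 2 with hR
    have hR0 : 0 ≤ R := by positivity
    have h1 : |x - ρ.re| ≤ √R := by
      apply Real.abs_le_sqrt
      rw [hR]; nlinarith [sq_nonneg (u - ρ.im)]
    have h2 : |u - ρ.im| ≤ √R := by
      apply Real.abs_le_sqrt
      rw [hR]; nlinarith [sq_nonneg (x - ρ.re)]
    have h3 : √R / R = 1 / √R := Real.sqrt_div_self'
    constructor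
    · rw [hgx]
      simp only
      rw [Complex.norm_real, Real.norm_eq_abs, abs_div, abs_of_nonneg hR0, ← h3]
      gcongr
    · rw [hgu]
      simp only
      rw [Complex.norm_real, Real.norm_eq_abs, abs_div, abs_of_nonneg hR0, ← h3]
      gcongr
  have igx : IntegrableOn (fun p : ℝ × ℝ => gx p.1 p.2) (Icc x₁ x₂ ×ˢ Icc u₁ u₂) := by
    refine (int_inv ρ x₁ x₂ u₁ u₂).mono' ?_ (Filter.Eventually.of_forall fun p => (hn p.1 p.2).1)
    rw [hgx]
    apply Measurable.aestronglyMeasurable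
    fun_prop
  have igu : IntegrableOn (fun p : ℝ × ℝ => gu p.1 p.2) (Icc x₁ x₂ ×ˢ Icc u₁ u₂) := by
    refine (int_inv ρ x₁ x₂ u₁ u₂).mono' ?_ (Filter.Eventually.of_forall fun p => (hn p.1 p.2).2)
    rw [hgu]
    apply Measurable.aestronglyMeasurable
    fun_prop
  have iLP1 := iL.mul_continuousOn cP1.continuousOn hcpt
  have iLP2 := iL.mul_continuousOn cP2.continuousOn hcpt
  have igA := igx.mul_continuousOn cA.continuousOn hcpt
  have igB := igu.mul_continuousOn cB.continuousOn hcpt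
  -- integration by parts
  have hpos : ∀ x u : ℝ, u ≠ ρ.im → 0 < (x - ρ.re) ^ 2 + (u - ρ.im) ^ 2 := by
    intro x u h
    have : 0 < (u - ρ.im) ^ 2 := by
      have := sub_ne_zero.2 h
      positivity
    positivity
  have hpos' : ∀ x u : ℝ, x ≠ ρ.re → 0 < (x - ρ.re) ^ 2 + (u - ρ.im) ^ 2 := by
    intro x u h
    have : 0 < (x - ρ.re) ^ 2 := by
      have := sub_ne_zero.2 h
      positivity
    positivity
  have hparx : ∀ u, u ≠ ρ.im → ∫ x in Icc x₁ x₂, L x u * P1 x u = -∫ x in Icc x₁ x₂, gx x u * A x u := by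
    intro u hu'
    refine ibp1 hx.le (H := fun x => L x u) (H1 := fun x => gx x u) (Φ := fun x => A x u)
      (Φ1 := fun x => P1 x u) ?_ ?_ ?_ ((cP1.comp (Continuous.prodMk_left u)).continuousOn) ?_ ?_
    · intro x _
      rw [hL, hgx]
      exact deriv_log_x x u ρ (hpos x u hu')
    · intro x _
      rw [hA, hP1]
      have h1 := ((((cut_deriv hcut.cθ x).2.mul (hor (hK (x + u * I)))).add
        ((cut_deriv hcut.cθ x).1.mul (hor (hK1 (x + u * I))))).mul_const ((η u : ℝ) : ℂ))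
      refine h1.congr_deriv ?_
      ring
    · rw [hgx]
      apply Continuous.continuousOn
      apply Complex.continuous_ofReal.comp
      apply Continuous.div (by fun_prop) (by fun_prop)
      intro x
      exact (hpos x u hu').ne'
    · simp [hA, θa, θa1]
    · simp [hA, θb, θb1]
  have hparu : ∀ x, x ≠ ρ.re → ∫ u in Icc u₁ u₂, L x u * P2 x u = -∫ u in Icc u₁ u₂, gu x u * B x u := by
    intro x hx'
    refine ibp1 hu.le (H := fun u => L x u) (H1 := fun u => gu x u) (Φ := fun u => B x u)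
      (Φ1 := fun u => P2 x u) ?_ ?_ ?_ ((cP2.comp (Continuous.prodMk_right x)).continuousOn) ?_ ?_
    · intro u _
      rw [hL, hgu]
      exact deriv_log_u x u ρ (hpos' x u hx')
    · intro u _
      rw [hB, hP2]
      have h1 := ((((cut_deriv hcut.cη u).2.mul (ver (hK (x + u * I)))).add
        ((cut_deriv hcut.cη u).1.mul ((ver (hK1 (x + u * I))).mul_const I))).mul_const
          ((θ x : ℝ) : ℂ))
      refine h1.congr_deriv ?_
      ring
    · rw [hgu]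
      apply Continuous.continuousOn
      apply Complex.continuous_ofReal.comp
      apply Continuous.div (by fun_prop) (by fun_prop)
      intro u
      exact (hpos' x u hx').ne'
    · simp [hB, ηa, ηa1]
    · simp [hB, ηb, ηb1]
  -- Fubini
  have hr := volume_rect x₁ x₂ u₁ u₂
  have h1 : ∫ p in Icc x₁ x₂ ×ˢ Icc u₁ u₂, L p.1 p.2 * P1 p.1 p.2 =
      -∫ p in Icc x₁ x₂ ×ˢ Icc u₁ u₂, gx p.1 p.2 * A p.1 p.2 := by
    have i1 := iLP1
    have i2 := igA
    rw [IntegrableOn, hr] at i1 i2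
    rw [hr, integral_prod_symm _ i1, integral_prod_symm _ i2, ← integral_neg]
    apply integral_congr_ae
    filter_upwards [ae_restrict_of_ae (Measure.ae_ne volume ρ.im)] with u hu'
    exact hparx u hu'
  have h2 : ∫ p in Icc x₁ x₂ ×ˢ Icc u₁ u₂, L p.1 p.2 * P2 p.1 p.2 =
      -∫ p in Icc x₁ x₂ ×ˢ Icc u₁ u₂, gu p.1 p.2 * B p.1 p.2 := by
    have i1 := iLP2
    have i2 := igB
    rw [IntegrableOn, hr] at i1 i2
    rw [hr, integral_prod _ i1, integral_prod _ i2, ← integral_neg]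
    apply integral_congr_ae
    filter_upwards [ae_restrict_of_ae (Measure.ae_ne volume ρ.re)] with x hx'
    exact hparu x hx'
  have h3 : ∫ p in Icc x₁ x₂ ×ˢ Icc u₁ u₂, ((Real.log ‖(p.1 : ℂ) + p.2 * I - ρ‖ : ℝ) : ℂ) *
      Lp K θ η p.1 p.2 =
      ∫ p in Icc x₁ x₂ ×ˢ Icc u₁ u₂, (L p.1 p.2 * P1 p.1 p.2 + L p.1 p.2 * P2 p.1 p.2) := by
    congr 1
    funext p
    rw [hLp, hL]
    ring
  -- vanishing outside the rectangle
  have θz : ∀ x, x ∉ Icc x₁ x₂ → θ x = 0 ∧ deriv θ x = 0 := by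
    intro x hx'
    have hopen : IsOpen (Icc x₁ x₂)ᶜ := isClosed_Icc.isOpen_compl
    have hev : θ =ᶠ[nhds x] fun _ => 0 := by
      filter_upwards [hopen.mem_nhds hx'] with y hy
      exact hcut.zθ y (fun h => hy (Ioo_subset_Icc_self h))
    exact ⟨hev.eq_of_nhds, by rw [hev.deriv_eq]; simp⟩
  have ηz : ∀ u, u ∉ Icc u₁ u₂ → η u = 0 ∧ deriv η u = 0 := by
    intro x hx'
    have hopen : IsOpen (Icc u₁ u₂)ᶜ := isClosed_Icc.isOpen_compl
    have hev : η =ᶠ[nhds x] fun _ => 0 := by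
      filter_upwards [hopen.mem_nhds hx'] with y hy
      exact hcut.zη y (fun h => hy (Ioo_subset_Icc_self h))
    exact ⟨hev.eq_of_nhds, by rw [hev.deriv_eq]; simp⟩
  have hz : ∀ x u, ¬ (x ∈ Icc x₁ x₂ ∧ u ∈ Icc u₁ u₂) → Φ x u = 0 ∧ A x u = 0 ∧ B x u = 0 := by
    intro x u h
    by_cases hx' : x ∈ Icc x₁ x₂
    · have hu' : u ∉ Icc u₁ u₂ := fun h' => h ⟨hx', h'⟩
      obtain ⟨e1, e2⟩ := ηz u hu'
      refine ⟨?_, ?_, ?_⟩
      · simp [hΦ, e1]
      · simp [hA, e1]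
      · simp [hB, e1, e2]
    · obtain ⟨e1, e2⟩ := θz x hx'
      refine ⟨?_, ?_, ?_⟩
      · simp [hΦ, e1]
      · simp [hA, e1, e2]
      · simp [hB, e1]
  have h4 : ∫ p in Icc x₁ x₂ ×ˢ Icc u₁ u₂, (gx p.1 p.2 * A p.1 p.2 + gu p.1 p.2 * B p.1 p.2) =
      ∫ p : ℝ × ℝ, (gx p.1 p.2 * A p.1 p.2 + gu p.1 p.2 * B p.1 p.2) := by
    apply setIntegral_eq_integral_of_forall_compl_eq_zero
    intro p hp
    obtain ⟨-, e1, e2⟩ := hz p.1 p.2 hp
    rw [e1, e2, mul_zero, mul_zero, add_zero]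
  -- the radial derivative
  have hF : ∀ r φ : ℝ, HasDerivAt (fun r : ℝ => Φ (ρ.re + r * Real.cos φ) (ρ.im + r * Real.sin φ))
      ((Real.cos φ : ℂ) * A (ρ.re + r * Real.cos φ) (ρ.im + r * Real.sin φ) +
        (Real.sin φ : ℂ) * B (ρ.re + r * Real.cos φ) (ρ.im + r * Real.sin φ)) r := by
    intro r φ
    have d1 : HasDerivAt (fun r : ℝ => ρ.re + r * Real.cos φ) (Real.cos φ) r := by
      simpa using ((hasDerivAt_id r).mul_const (Real.cos φ)).const_add ρ.re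
    have d2 : HasDerivAt (fun r : ℝ => ρ.im + r * Real.sin φ) (Real.sin φ) r := by
      simpa using ((hasDerivAt_id r).mul_const (Real.sin φ)).const_add ρ.im
    have d3 := (cut_deriv hcut.cθ (ρ.re + r * Real.cos φ)).1.scomp r d1
    have d4 := (cut_deriv hcut.cη (ρ.im + r * Real.sin φ)).1.scomp r d2
    have d5 : HasDerivAt (fun r : ℝ => ((ρ.re + r * Real.cos φ : ℝ) : ℂ) +
        ((ρ.im + r * Real.sin φ : ℝ) : ℂ) * I) ((Real.cos φ : ℂ) + (Real.sin φ : ℂ) * I) r :=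
      d1.ofReal_comp.add (d2.ofReal_comp.mul_const I)
    have d6 := (hK (((ρ.re + r * Real.cos φ : ℝ) : ℂ) +
        ((ρ.im + r * Real.sin φ : ℝ) : ℂ) * I)).hasDerivAt.comp r d5
    have d7 := (d3.mul d4).mul d6
    rw [hΦ, hA, hB]
    refine d7.congr_deriv ?_
    simp only [Pi.mul_apply, Function.comp_apply, Complex.real_smul]
    ring
  set R₀ : ℝ := |x₁ - ρ.re| + |x₂ - ρ.re| + |u₁ - ρ.im| + |u₂ - ρ.im| with hR₀
  have h5 := radial Φ A B ρ.re ρ.im R₀ hF cA cB (by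
    intro r φ hr
    apply hz
    rintro ⟨hx', hu'⟩
    have e1 : |r * Real.cos φ| ≤ |x₁ - ρ.re| + |x₂ - ρ.re| := by
      rw [abs_le]
      constructor
      · have := neg_abs_le (x₁ - ρ.re)
        have := abs_nonneg (x₂ - ρ.re)
        linarith [hx'.1]
      · have := le_abs_self (x₂ - ρ.re)
        have := abs_nonneg (x₁ - ρ.re)
        linarith [hx'.2]
    have e2 : |r * Real.sin φ| ≤ |u₁ - ρ.im| + |u₂ - ρ.im| := by
      rw [abs_le]
      constructor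
      · have := neg_abs_le (u₁ - ρ.im)
        have := abs_nonneg (u₂ - ρ.im)
        linarith [hu'.1]
      · have := le_abs_self (u₂ - ρ.im)
        have := abs_nonneg (u₁ - ρ.im)
        linarith [hu'.2]
    have hr0 : 0 < r := lt_of_le_of_lt (by positivity) hr
    have e3 : r ≤ |r * Real.cos φ| + |r * Real.sin φ| := by
      rw [abs_mul, abs_mul, abs_of_pos hr0, ← mul_add]
      have e4 : 1 ≤ |Real.cos φ| + |Real.sin φ| := by
        have := Real.sin_sq_add_cos_sq φ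
        rw [← sq_abs (Real.sin φ), ← sq_abs (Real.cos φ)] at this
        nlinarith [abs_nonneg (Real.cos φ), abs_nonneg (Real.sin φ)]
      nlinarith
    linarith)
  have h6 : ∫ p : ℝ × ℝ, (gx p.1 p.2 * A p.1 p.2 + gu p.1 p.2 * B p.1 p.2) =
      -(2 * Real.pi * Φ ρ.re ρ.im) := by
    rw [← h5, hgx, hgu]
  rw [h3, integral_add iLP1 iLP2, h1, h2, ← neg_add, ← integral_add igA igB, h4, h6, neg_neg, hΦ]
  simp only [Complex.re_add_im]
  push_cast
  ring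

end Pool.Agent.H33.PP
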