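import Pool.Agent.H33.PP.Chk
import Pool.Agent.H33.PP.Res

/-!
# Soundness of the checker
-/

set_option autoImplicit false

open Finset

namespace Pool.Agent.H33.PP

theorem force_eq (x : ℕ) (f : ℕ → Bool) : force x f = f x := by
  cases x <;> rfl

theorem brec_true {a b : Bool} (h : (Bool.rec false a b : Bool) = true) : a = true ∧ b = true := by
  cases b
  · exact absurd h Bool.false_ne_true
  · exact ⟨h, rfl⟩

theorem all1_true {K : ℕ} {f : ℕ → Bool} (h : all1 K f = true) : ∀ k < K, f k = true := by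
  induction K with
  | zero => intro k hk; exact absurd hk (Nat.not_lt_zero _)
  | succ K ih =>
    obtain ⟨h1, h2⟩ := brec_true (show (Bool.rec false (all1 K f) (f K) : Bool) = true from h)
    intro k hk
    rcases Nat.lt_succ_iff_lt_or_eq.1 hk with h3 | rfl
    · exact ih h1 k h3
    · exact h2

theorem all2_true {K : ℕ} {f : ℕ → Bool} (h : all2 K f = true) : ∀ k < K, f k = true := by
  intro k hk
  have h1 := all1_true h (k / 256) (by
    show k / 256 < Nat.succ (K / 256)
    have := Nat.div_le_div_right (c := 256) hk.le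
    omega)
  rw [force_eq] at h1
  have h2 := all1_true h1 (k % 256) (by
    show k % 256 < 256 - (256 - (K - 256 * (k / 256)))
    omega)
  have h3 : Nat.add (Nat.mul 256 (k / 256)) (k % 256) = k := by
    show 256 * (k / 256) + k % 256 = k
    omega
  rw [h3] at h2
  exact h2

theorem all3_true {K : ℕ} {f : ℕ → Bool} (h : all3 K f = true) : ∀ k < K, f k = true := by
  intro k hk
  have h1 := all1_true h (k / 65536) (by
    show k / 65536 < Nat.succ (K / 65536)
    have := Nat.div_le_div_right (c := 65536) hk.le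
    omega)
  rw [force_eq] at h1
  have h2 := all2_true h1 (k % 65536) (by
    show k % 65536 < 65536 - (65536 - (K - 65536 * (k / 65536)))
    omega)
  have h3 : Nat.add (Nat.mul 65536 (k / 65536)) (k % 65536) = k := by
    show 65536 * (k / 65536) + k % 65536 = k
    omega
  rw [h3] at h2
  exact h2

theorem nz_true {x : ℕ} (h : nz x = true) : x ≠ 0 := by
  rintro rfl
  exact Bool.false_ne_true h

theorem dir_true {M d a K : ℕ} (h : dir M d a K = true) : ∀ k < K, M % (d + a * k) ≠ 0 :=
  fun k hk => nz_true (all3_true h k hk)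

theorem btw_true {E r : ℕ} (h : btw E r = true) : r * r < E ∧ E < (r + 1) * (r + 1) := by
  obtain ⟨h1, h2⟩ := brec_true h
  exact ⟨Nat.le_of_ble_eq_true h2, Nat.le_of_ble_eq_true h1⟩

theorem not_sq {E r : ℕ} (h : btw E r = true) (x : ℕ) : E ≠ x * x := by
  obtain ⟨h1, h2⟩ := btw_true h
  rintro rfl
  have h3 : r < x := by
    by_contra hcon
    have := Nat.mul_le_mul (not_lt.1 hcon) (not_lt.1 hcon)
    omega
  have h4 : x < r + 1 := by
    by_contra hcon
    have := Nat.mul_le_mul (not_lt.1 hcon) (not_lt.1 hcon)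
    omega
  omega

theorem nsq_true {E : ℕ} (h : nsq E = true) (x : ℕ) (hx : x ≠ 0) : E ≠ x * x := by
  cases E with
  | zero =>
    intro h0
    rcases Nat.mul_eq_zero.1 h0.symm with h1 | h1 <;> exact hx h1
  | succ E =>
    unfold nsq at h
    simp only [force_eq] at h
    generalize nstep (E + 1) (nstep (E + 1) (nstep (E + 1) (nstep (E + 1) (nstep (E + 1)
      (nstep (E + 1) (Nat.pow 2 (Nat.succ (Nat.div (Nat.log2 (E + 1)) 2)))))))) = r at h
    rcases hb : btw (E + 1) r with _ | _
    · rw [hb] at h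
      exact not_sq (h : btw (E + 1) (Nat.pred r) = true) x
    · exact not_sq hb x

theorem mask_all : all2 5040 (fun x => bit mask (Nat.mod (Nat.mul x x) 5040)) = true := by
  decide +kernel

theorem mask_ok (x : ℕ) : bit mask (Nat.mod (x * x) 5040) = true := by
  have h := all2_true mask_all (x % 5040) (Nat.mod_lt _ (by norm_num))
  have h2 : Nat.mod (Nat.mul (x % 5040) (x % 5040)) 5040 = Nat.mod (x * x) 5040 := by
    show (x % 5040) * (x % 5040) % 5040 = x * x % 5040
    rw [← Nat.mul_mod]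
  rw [← h2]
  exact h

theorem sqc_true {E : ℕ} (h : sqc E = true) (x : ℕ) (hx : x ≠ 0) : E ≠ x * x := by
  unfold sqc at h
  rw [force_eq] at h
  rintro rfl
  rw [mask_ok x] at h
  exact nsq_true (h : nsq (x * x) = true) x hx rfl

theorem einv_true (s : ℕ) (f : ℕ → Bool) (F : ℕ) : ∀ (r0 r1 t0 t1 : ℕ) (sg : Bool),
    einv s f F r0 r1 t0 t1 sg = true → ∃ w, f w = true := by
  induction F with
  | zero => intro r0 r1 t0 t1 sg h; exact absurd h Bool.false_ne_true
  | succ F ih =>
    intro r0 r1 t0 t1 sg h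
    rcases r1 with _ | _ | r1
    · exact ⟨0, h⟩
    · cases sg
      · exact ⟨_, h⟩
      · exact ⟨_, h⟩
    · have h1 : (force (Nat.div r0 (r1 + 2)) fun q => force (Nat.sub r0 (Nat.mul q (r1 + 2)))
          fun r2 => force (Nat.add t0 (Nat.mul q t1)) fun t2 =>
            einv s f F (r1 + 2) r2 t1 t2 (Bool.rec true false sg)) = true := h
      simp only [force_eq] at h1
      exact ih _ _ _ _ _ h1

theorem sums_true {n s S sb : ℕ} (h : sums n s S sb = true) :
    (n * sb + 1) % s = 0 ∧ (sb + s) % 4 = 3 ∧ s * sb + 1 ≤ 4 * n + 4 * (s * s) ∧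
    ∀ t < (S + 4 * (s * s) - s * sb) / (4 * (s * s)),
      sqc ((sb / 2 + 2 * s * t) * (sb / 2 + 2 * s * t) - ((n * sb + 1) / s + 4 * n * t)) = true := by
  obtain ⟨h1, h2⟩ := brec_true h
  obtain ⟨h3, h4⟩ := brec_true h1
  obtain ⟨h5, h6⟩ := brec_true h3
  simp only [force_eq] at h5
  exact ⟨Nat.eq_of_beq_eq_true h2, Nat.eq_of_beq_eq_true h4, Nat.le_of_ble_eq_true h6,
    all3_true h5⟩

/-- There are no `r` primes above `last` which complete the prefix with the product `n` and the
numerator `s`. -/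
def P (r n s last : ℕ) : Prop :=
  ∀ B : Finset ℕ, B.card = r → (∀ p ∈ B, p.Prime ∧ last < p) → s * ∏ p ∈ B, p ≠ n * dv B + 1

/-- the conditions -/
def Ok (n s last : ℕ) : Prop := n % 4 = 2 ∧ s % 2 = 1 ∧ 2 ≤ last

/-- The sums. -/
theorem sum_case (n s p q sb S : ℕ) (hn : n % 4 = 2) (hs : s % 2 = 1) (hp : p % 2 = 1)
    (hq : q % 2 = 1) (hpq : p < q) (he : s * (p * q) = n * (q + p) + 1)
    (hS : s * (p + q) ≤ S) (hge : 4 * n ≤ s * (p + q)) (h : sums n s S sb = true) : False := by
  obtain ⟨c1, c2, c3, c4⟩ := sums_true h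
  have hs0 : 0 < s := by omega
  obtain ⟨σ, hσ⟩ : ∃ σ, σ = p + q := ⟨_, rfl⟩
  have he' : s * (p * q) = n * σ + 1 := by rw [he, hσ, add_comm q p]
  have hσ2 : σ % 2 = 0 := by omega
  -- modulo 4
  have h4 : (σ + s) % 4 = 3 := by
    have e1 : (n * σ) % 4 = 0 := by
      rw [Nat.mul_mod, hn]
      have : σ % 4 = 0 ∨ σ % 4 = 2 := by omega
      rcases this with h | h <;> rw [h]
    have e2 : (s * (p * q)) % 4 = 1 := by rw [he']; omega
    rw [Nat.mul_mod, Nat.mul_mod p q] at e2
    have a1 : s % 4 = 1 ∨ s % 4 = 3 := by omega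
    have a2 : p % 4 = 1 ∨ p % 4 = 3 := by omega
    have a3 : q % 4 = 1 ∨ q % 4 = 3 := by omega
    rcases a1 with a1 | a1 <;> rcases a2 with a2 | a2 <;> rcases a3 with a3 | a3 <;>
      simp only [a1, a2, a3] at e2 <;> omega
  -- modulo s
  have hcop : Nat.Coprime n s := by
    have h1 : Nat.gcd n s ∣ 1 := by
      have h2 : Nat.gcd n s ∣ n * σ := Dvd.dvd.mul_right (Nat.gcd_dvd_left n s) σ
      have h3 : Nat.gcd n s ∣ n * σ + 1 := by
        rw [← he']
        exact Dvd.dvd.mul_right (Nat.gcd_dvd_right n s) _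
      exact (Nat.dvd_add_right h2).1 h3
    exact Nat.dvd_one.1 h1
  have hms : (s : ℤ) ∣ (σ : ℤ) - sb := by
    have h1 : (s : ℤ) ∣ n * ((σ : ℤ) - sb) := by
      have h2 : (s : ℤ) ∣ (n : ℤ) * σ + 1 := ⟨(p * q : ℕ), by exact_mod_cast he'.symm⟩
      have h3 : (s : ℤ) ∣ (n : ℤ) * sb + 1 := by
        exact_mod_cast Nat.dvd_of_mod_eq_zero c1
      have h4 := dvd_sub h2 h3
      have h5 : (n : ℤ) * σ + 1 - ((n : ℤ) * sb + 1) = n * ((σ : ℤ) - sb) := by ring
      rwa [h5] at h4
    exact (Int.isCoprime_iff_gcd_eq_one.2 (by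
      rw [Int.gcd_natCast_natCast]
      exact hcop.symm)).dvd_of_dvd_mul_left h1
  have hm4 : (4 : ℤ) ∣ (σ : ℤ) - sb := by omega
  have hm : ((4 * s : ℕ) : ℤ) ∣ (σ : ℤ) - sb := by
    push_cast
    refine IsCoprime.mul_dvd ?_ hm4 hms
    rw [show (4 : ℤ) = 2 ^ 2 by norm_num]
    refine IsCoprime.pow_left ?_
    rw [Int.isCoprime_iff_gcd_eq_one]
    have : Nat.Coprime 2 s := (Nat.coprime_two_left).2 (Nat.odd_iff.2 hs)
    exact_mod_cast this
  have hge' : sb ≤ σ := by
    by_contra hcon
    push Not at hcon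
    obtain ⟨c, hc⟩ := hm
    have h1 : (4 * (s : ℤ)) * c < 0 := by
      push_cast at hc
      rw [← hc]
      omega
    have h2 : c < 0 := by
      by_contra h3
      have := mul_nonneg (show (0 : ℤ) ≤ 4 * s by positivity) (not_lt.1 h3)
      linarith
    have h3 : σ + 4 * s ≤ sb := by
      have h4 : (4 * (s : ℤ)) * c ≤ (4 * s) * (-1) :=
        mul_le_mul_of_nonneg_left (by omega) (by positivity)
      push_cast at hc
      omega
    have h5 : s * (σ + 4 * s) ≤ s * sb := Nat.mul_le_mul_left s h3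
    rw [← hσ] at hge
    have h6 : s * (σ + 4 * s) = s * σ + 4 * (s * s) := by ring
    omega
  obtain ⟨t, ht⟩ : ∃ t, σ = sb + 4 * s * t := by
    have h1 : (4 * s) ∣ σ - sb := by
      zify [hge']
      exact_mod_cast hm
    obtain ⟨t, ht⟩ := h1
    exact ⟨t, by omega⟩
  have htK : t < (S + 4 * (s * s) - s * sb) / (4 * (s * s)) := by
    rw [← hσ, ht] at hS
    rw [Nat.lt_iff_add_one_le, Nat.le_div_iff_mul_le (by positivity)]
    have h1 : s * (sb + 4 * s * t) = s * sb + t * (4 * (s * s)) := by ring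
    have h2 : (t + 1) * (4 * (s * s)) = t * (4 * (s * s)) + 4 * (s * s) := by ring
    omega
  have hE := c4 t htK
  obtain ⟨x, hx⟩ : ∃ x, q = p + 2 * x := ⟨(q - p) / 2, by omega⟩
  have hx0 : x ≠ 0 := by omega
  refine sqc_true hE x hx0 ?_
  obtain ⟨e0, he0⟩ := Nat.dvd_of_mod_eq_zero c1
  have hd : (n * sb + 1) / s = e0 := by rw [he0, Nat.mul_div_cancel_left _ hs0]
  have hpq2 : p * q = e0 + 4 * n * t := by
    have h1 : s * (p * q) = s * (e0 + 4 * n * t) := by
      rw [he', ht, mul_add s, ← he0]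
      ring
    exact Nat.eq_of_mul_eq_mul_left hs0 h1
  have hg : sb / 2 + 2 * s * t = p + x := by
    have h1 : sb + 4 * s * t = 2 * (p + x) := by rw [← ht, hσ, hx]; ring
    have h2 : 4 * s * t = 2 * (2 * s * t) := by ring
    have h3 : sb % 2 = 0 := by omega
    omega
  rw [hd, ← hpq2, hg, hx]
  have h1 : (p + x) * (p + x) = p * (p + 2 * x) + x * x := by ring
  omega

theorem leaf_sound (n s last : ℕ) (hok : Ok n s last) (h : leaf n s last = true) :
    P 2 n s last := by
  obtain ⟨hn, hs, hl⟩ := hok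
  have hs0 : 0 < s := by omega
  have hn0 : 0 < n := by omega
  unfold leaf at h
  simp only [force_eq] at h
  obtain ⟨h1, h2⟩ := brec_true h
  obtain ⟨w, hw⟩ := einv_true _ _ _ _ _ _ _ _ h1
  unfold sbase at hw
  simp only [force_eq] at hw
  have hdir := dir_true h2
  clear h h1 h2
  have key : ∀ p q : ℕ, p.Prime → q.Prime → last < p → p < q →
      s * (p * q) ≠ n * (q + p) + 1 := by
    intro p q hp hq hlp hpq he
    have hp2 : p % 2 = 1 := Nat.odd_iff.1 (hp.odd_of_ne_two (by omega))
    have hq2 : q % 2 = 1 := Nat.odd_iff.1 (hq.odd_of_ne_two (by omega))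
    have hsp : n < s * p := by
      by_contra hcon
      have h1 := Nat.mul_le_mul_right q (not_lt.1 hcon)
      have h2 : s * p * q = s * (p * q) := by ring
      have h3 : n * (q + p) = n * q + n * p := by ring
      omega
    obtain ⟨d, hd⟩ : ∃ d, s * p = n + d := ⟨s * p - n, by omega⟩
    have hsq : s * p < s * q := Nat.mul_lt_mul_of_pos_left hpq hs0
    obtain ⟨e, hee⟩ : ∃ e, s * q = n + e := ⟨s * q - n, by omega⟩
    have hde : d < e := by omega
    have hM : d * e = n * n + s := by
      have h1 : ((s : ℤ) * p - n) * (s * q - n) = n * n + s := by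
        have h2 : (s : ℤ) * (p * q) = n * (q + p) + 1 := by exact_mod_cast he
        linear_combination (s : ℤ) * h2
      have h3 : (d : ℤ) = s * p - n := by
        have : (s : ℤ) * p = n + d := by exact_mod_cast hd
        linarith
      have h4 : (e : ℤ) = s * q - n := by
        have : (s : ℤ) * q = n + e := by exact_mod_cast hee
        linarith
      have h5 : (d : ℤ) * e = n * n + s := by rw [h3, h4, h1]
      exact_mod_cast h5
    have hdiv : n / s < p := by
      rw [Nat.div_lt_iff_lt_mul hs0, mul_comm]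
      exact hsp
    obtain ⟨b, hb⟩ : ∃ b, b = Nat.succ (Nat.mul 2 (Nat.div (Nat.succ (Nat.div n s)) 2)) := ⟨_, rfl⟩
    rw [← hb] at hdir hw
    have hb' : b = 2 * ((n / s + 1) / 2) + 1 := hb
    obtain ⟨k, hk⟩ : ∃ k, p = b + 2 * k := ⟨(p - b) / 2, by omega⟩
    have hbn : n < s * b := by
      have h1 : n < s * (n / s + 1) := Nat.lt_mul_div_succ n hs0
      have h2 : s * (n / s + 1) ≤ s * b := Nat.mul_le_mul_left s (by omega)
      omega
    generalize Nat.succ (Nat.div n (Nat.mul s (Nat.pow 2 (Nat.succ (Nat.div (Nat.log2 s) 2))))) = K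
      at hdir hw
    have hkK : K ≤ k := by
      by_contra hcon
      push Not at hcon
      apply hdir k hcon
      have h1 : Nat.sub (Nat.mul s b) n + Nat.mul 2 s * k = d := by
        show s * b - n + 2 * s * k = d
        have h2 : s * p = s * b + 2 * s * k := by rw [hk]; ring
        omega
      rw [h1]
      show (n * n + s) % d = 0
      rw [← hM]
      exact Nat.mul_mod_right d e
    obtain ⟨U, hU⟩ : ∃ U, U = s * (b + 2 * K) - n := ⟨_, rfl⟩
    have hUd : U ≤ d := by
      have h1 : s * (b + 2 * K) ≤ s * p := Nat.mul_le_mul_left s (by omega)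
      omega
    have hU0 : 0 < U := by
      have h1 : s * b ≤ s * (b + 2 * K) := Nat.mul_le_mul_left s (by omega)
      omega
    have hS : s * (p + q) ≤ 2 * n + U + (n * n + s) / U := by
      have h1 : s * (p + q) = 2 * n + (d + e) := by rw [mul_add]; omega
      have h2 : d + e - U ≤ (n * n + s) / U := by
        rw [Nat.le_div_iff_mul_le hU0, ← hM]
        obtain ⟨a, rfl⟩ := Nat.exists_eq_add_of_le hUd
        obtain ⟨c, rfl⟩ := Nat.exists_eq_add_of_lt hde
        have h3 : U + a + (U + a + c + 1) - U = a + (U + a + c + 1) := by omega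
        rw [h3]
        nlinarith
      omega
    have hge : 4 * n ≤ s * (p + q) := by
      have h1 : s * (p + q) = 2 * n + (d + e) := by rw [mul_add]; omega
      have h2 : 2 * n ≤ d + e := by
        by_contra hcon
        push Not at hcon
        nlinarith [mul_self_nonneg ((d : ℤ) - e)]
      omega
    exact sum_case n s p q _ _ hn hs hp2 hq2 hpq he hS hge (by rw [hU]; exact hw)
  intro B hB hBp
  obtain ⟨x, y, hxy, rfl⟩ := Finset.card_eq_two.1 hB
  have hx := hBp x (by simp)
  have hy := hBp y (by simp)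
  have hprod : ∏ p ∈ ({x, y} : Finset ℕ), p = x * y := Finset.prod_pair hxy
  have hdv : dv ({x, y} : Finset ℕ) = y + x := by
    rw [dv_insert {y} x (by simpa using hxy)]
    simp [dv]
  rw [hprod, hdv]
  rcases lt_or_gt_of_ne hxy with h | h
  · exact key x y hx.1 hy.1 hx.2 h
  · have := key y x hy.1 hx.1 hy.2 h
    rwa [mul_comm y x, add_comm x y] at this

end Pool.Agent.H33.PP
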