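import Pool.Agent.H33.PP.Sound

/-!
# Soundness of the search tree
-/

set_option autoImplicit false

open Finset

namespace Pool.Agent.H33.PP

/-- the primes below 174 -/
def plist : List ℕ := [2, 3, 5, 7, 11, 13, 17, 19, 23, 29, 31, 37, 41, 43, 47, 53, 59, 61, 67, 71, 73, 79, 83, 89, 97, 101, 103, 107, 109, 113, 127, 131, 137, 139, 149, 151, 157, 163, 167, 173]

theorem primo_eq : primo = plist.prod := by decide +kernel

theorem plist_le : ∀ a ∈ plist, 0 < a ∧ a ≤ 173 := by decide +kernel

theorem smask_ok : ∀ p < 174, p.Prime → bit smask p = true := by decide +kernel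

theorem cand_true {p : ℕ} (hp : p.Prime) : cand p = true := by
  unfold cand
  by_cases h : p < 174
  · rw [smask_ok p h hp]
    cases Nat.beq (Nat.gcd p primo) 1 <;> rfl
  · have h1 : Nat.gcd p primo = 1 := by
      refine (Nat.Prime.coprime_iff_not_dvd hp).2 fun hd => ?_
      rw [primo_eq] at hd
      obtain ⟨a, ha, hpa⟩ := (Prime.dvd_prod_iff hp.prime).1 hd
      have h2 := plist_le a ha
      have h3 := Nat.le_of_dvd h2.1 hpa
      omega
    rw [h1]
    rfl

theorem min_step (r n s last : ℕ) (hr : 1 ≤ r) (hok : Ok n s last) (B : Finset ℕ)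
    (hB : B.card = r + 1) (hBp : ∀ p ∈ B, p.Prime ∧ last < p)
    (he : s * ∏ p ∈ B, p = n * dv B + 1) :
    ∃ p : ℕ, p.Prime ∧ last < p ∧ n / s < p ∧ s * p ≤ (r + 1) * n ∧ Ok (n * p) (s * p - n) p ∧
      (∀ q ∈ B, p ≤ q) ∧ ¬ P r (n * p) (s * p - n) p := by
  classical
  obtain ⟨hn, hs, hl⟩ := hok
  have hs0 : 0 < s := by omega
  have hn0 : 0 < n := by omega
  have hne : B.Nonempty := by
    rw [← Finset.card_pos, hB]
    omega
  obtain ⟨p, hp⟩ : ∃ p, p = B.min' hne := ⟨_, rfl⟩
  have hpB : p ∈ B := hp ▸ B.min'_mem hne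
  obtain ⟨C, hC⟩ : ∃ C, C = B.erase p := ⟨_, rfl⟩
  have hins : insert p C = B := by rw [hC, Finset.insert_erase hpB]
  have hpC : p ∉ C := by rw [hC]; exact Finset.notMem_erase _ _
  have hCc : C.card = r := by
    rw [hC, Finset.card_erase_of_mem hpB, hB]
    rfl
  have hCp : ∀ q ∈ C, q.Prime ∧ p < q := by
    intro q hq
    rw [hC] at hq
    have h1 := Finset.mem_of_mem_erase hq
    refine ⟨(hBp q h1).1, lt_of_le_of_ne ?_ (Finset.ne_of_mem_erase hq).symm⟩
    rw [hp]
    exact B.min'_le q h1
  obtain ⟨hpp, hlp⟩ := hBp p hpB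
  obtain ⟨Q, hQ⟩ : ∃ Q, Q = ∏ q ∈ C, q := ⟨_, rfl⟩
  obtain ⟨D, hD⟩ : ∃ D, D = dv C := ⟨_, rfl⟩
  have hQ0 : 0 < Q := by
    rw [hQ]
    exact Finset.prod_pos fun q hq => (hCp q hq).1.pos
  rw [← hins, Finset.prod_insert hpC, dv_insert C p hpC, ← hQ, ← hD] at he
  have hpD : p * D + r ≤ r * Q := by
    rw [hD]
    unfold dv
    rw [Finset.mul_sum, ← hCc]
    have h1 : ∀ q ∈ C, p * (∏ x ∈ C.erase q, x) + 1 ≤ Q := by
      intro q hq
      have h2 : q * ∏ x ∈ C.erase q, x = Q := by
        rw [hQ]
        exact Finset.mul_prod_erase C (fun x => x) hq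
      have h3 : 0 < ∏ x ∈ C.erase q, x :=
        Finset.prod_pos fun x hx => (hCp x (Finset.mem_of_mem_erase hx)).1.pos
      have h4 := (hCp q hq).2
      have h5 : (p + 1) * (∏ x ∈ C.erase q, x) ≤ q * ∏ x ∈ C.erase q, x :=
        Nat.mul_le_mul_right _ h4
      rw [add_mul, one_mul] at h5
      omega
    have h6 := Finset.sum_le_sum h1
    rw [Finset.sum_add_distrib, Finset.sum_const, Finset.sum_const, smul_eq_mul, smul_eq_mul,
      mul_one] at h6
    exact h6
  have hnsp : n < s * p := by
    by_contra hcon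
    have h1 := Nat.mul_le_mul_right Q (not_lt.1 hcon)
    have h2 : s * (p * Q) = s * p * Q := by ring
    have h3 : n * (Q + p * D) = n * Q + n * (p * D) := by ring
    omega
  have hup : s * p ≤ (r + 1) * n := by
    by_contra hcon
    push Not at hcon
    have h1 : ((r + 1) * n + 1) * Q ≤ s * p * Q := Nat.mul_le_mul_right Q hcon
    have h2 : s * (p * Q) = s * p * Q := by ring
    have h3 : n * (Q + p * D) = n * Q + n * (p * D) := by ring
    have h4 : n * (p * D + r) ≤ n * (r * Q) := Nat.mul_le_mul_left n hpD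
    have h5 : n * (p * D + r) = n * (p * D) + n * r := by ring
    have h6 : ((r + 1) * n + 1) * Q = n * (r * Q) + n * Q + Q := by ring
    have h7 : 1 ≤ n * r := Nat.mul_pos hn0 hr
    omega
  have hp2 : p % 2 = 1 := Nat.odd_iff.1 (hpp.odd_of_ne_two (by omega))
  have hok' : Ok (n * p) (s * p - n) p := by
    refine ⟨?_, ?_, by omega⟩
    · rw [Nat.mul_mod, hn]
      have : p % 4 = 1 ∨ p % 4 = 3 := by omega
      rcases this with h | h <;> rw [h]
    · have h1 : (s * p) % 2 = 1 := by rw [Nat.mul_mod, hs, hp2]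
      omega
  refine ⟨p, hpp, hlp, ?_, hup, hok', ?_, fun hP => hP C hCc hCp ?_⟩
  · rw [Nat.div_lt_iff_lt_mul hs0, mul_comm]
    exact hnsp
  · intro q hq
    rw [hp]
    exact B.min'_le q hq
  · rw [← hQ, ← hD, Nat.sub_mul]
    have h2 : s * (p * Q) = s * p * Q := by ring
    have h3 : n * (Q + p * D) = n * Q + n * p * D := by ring
    omega

theorem split_min (r n s last : ℕ) (hr : 1 ≤ r) (hok : Ok n s last)
    (h : ∀ p : ℕ, p.Prime → last < p → n / s < p → s * p ≤ (r + 1) * n →
      Ok (n * p) (s * p - n) p → P r (n * p) (s * p - n) p) : P (r + 1) n s last := by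
  intro B hB hBp he
  obtain ⟨p, h1, h2, h3, h4, h5, _, h6⟩ := min_step r n s last hr hok B hB hBp he
  exact h6 (h p h1 h2 h3 h4 h5)

/-- The next prime is `p`, or all primes are above `p`. -/
theorem P_cases {r n s last : ℕ} (p : ℕ) (hr : 1 ≤ r) (hok : Ok n s last)
    (h1 : P r (n * p) (s * p - n) p) (h2 : P (r + 1) n s p)
    (hno : ∀ q : ℕ, q.Prime → last < q → n / s < q → q < p → False) : P (r + 1) n s last := by
  intro B hB hBp he
  obtain ⟨q, e1, e2, e3, e4, e5, e6, e7⟩ := min_step r n s last hr hok B hB hBp he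
  rcases lt_trichotomy q p with h | h | h
  · exact hno q e1 e2 e3 h
  · exact e7 (h ▸ h1)
  · exact h2 B hB (fun x hx => ⟨(hBp x hx).1, lt_of_lt_of_le h (e6 x hx)⟩) he

theorem step_sound (f : ℕ → ℕ → ℕ → Bool) (r : ℕ) (hr : 1 ≤ r)
    (hf : ∀ n s last, Ok n s last → f n s last = true → P r n s last) (n s last : ℕ)
    (hok : Ok n s last) (h : step f (r + 1) n s last = true) : P (r + 1) n s last := by
  refine split_min r n s last hr hok fun p hp hlp hdiv hup hok' => hf _ _ _ hok' ?_
  have hs0 : 0 < s := by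
    have := hok.2.1
    omega
  unfold step at h
  rw [force_eq] at h
  obtain ⟨lo, hlo⟩ : ∃ lo, lo = Nat.succ (Nat.add last (Nat.sub (Nat.div n s) last)) := ⟨_, rfl⟩
  rw [← hlo] at h
  have hlo' : lo = last + (n / s - last) + 1 := hlo
  have hhi : p ≤ (r + 1) * n / s := by
    rw [Nat.le_div_iff_mul_le hs0, mul_comm]
    exact hup
  have h1 := all2_true h (p - lo) (by
    show p - lo < ((r + 1) * n / s).succ - lo
    omega)
  have h2 : Nat.add lo (p - lo) = p := by
    show lo + (p - lo) = p
    omega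
  simp only [force_eq] at h1
  rw [h2, cand_true hp] at h1
  exact h1

theorem node3_sound {n s last : ℕ} (hok : Ok n s last) (h : node3 n s last = true) :
    P 3 n s last := step_sound leaf 2 (by norm_num) leaf_sound n s last hok h

theorem node4_sound {n s last : ℕ} (hok : Ok n s last) (h : node4 n s last = true) :
    P 4 n s last := step_sound node3 3 (by norm_num) (fun _ _ _ => node3_sound) n s last hok h

theorem node5_sound {n s last : ℕ} (hok : Ok n s last) (h : node5 n s last = true) :
    P 5 n s last := step_sound node4 4 (by norm_num) (fun _ _ _ => node4_sound) n s last hok h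

theorem node6_sound {n s last : ℕ} (hok : Ok n s last) (h : node6 n s last = true) :
    P 6 n s last := step_sound node5 5 (by norm_num) (fun _ _ _ => node5_sound) n s last hok h

theorem node7_sound {n s last : ℕ} (hok : Ok n s last) (h : node7 n s last = true) :
    P 7 n s last := step_sound node6 6 (by norm_num) (fun _ _ _ => node6_sound) n s last hok h

def node8 : ℕ → ℕ → ℕ → Bool := step node7 8

theorem node8_sound {n s last : ℕ} (hok : Ok n s last) (h : node8 n s last = true) :
    P 8 n s last := step_sound node7 7 (by norm_num) (fun _ _ _ => node7_sound) n s last hok h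

end Pool.Agent.H33.PP
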