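import Pool.Agent.H33.PP.Step

/-!
# The largest case, by factorization
-/

set_option autoImplicit false

open Finset

namespace Pool.Agent.H33.PP

theorem two_left (n s last : ℕ) (hok : Ok n s last)
    (h : ∀ p q d e : ℕ, p.Prime → q.Prime → last < p → p < q → s * p = n + d → s * q = n + e →
      d * e = n * n + s → False) : P 2 n s last := by
  obtain ⟨hn, hs, hl⟩ := hok
  have hs0 : 0 < s := by omega
  have hn0 : 0 < n := by omega
  have key : ∀ p q : ℕ, p.Prime → q.Prime → last < p → p < q →
      s * (p * q) ≠ n * (q + p) + 1 := by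
    intro p q hp hq hlp hpq he
    have hsp : n < s * p := by
      by_contra hcon
      have h1 := Nat.mul_le_mul_right q (not_lt.1 hcon)
      have h2 : s * p * q = s * (p * q) := by ring
      have h3 : n * (q + p) = n * q + n * p := by ring
      omega
    obtain ⟨d, hd⟩ : ∃ d, s * p = n + d := ⟨s * p - n, by omega⟩
    have hsq : s * p < s * q := Nat.mul_lt_mul_of_pos_left hpq hs0
    obtain ⟨e, hee⟩ : ∃ e, s * q = n + e := ⟨s * q - n, by omega⟩
    refine h p q d e hp hq hlp hpq hd hee ?_
    have h1 : ((s : ℤ) * p - n) * (s * q - n) = n * n + s := by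
      have h2 : (s : ℤ) * (p * q) = n * (q + p) + 1 := by exact_mod_cast he
      linear_combination (s : ℤ) * h2
    have h3 : (d : ℤ) = s * p - n := by
      have : (s : ℤ) * p = n + d := by exact_mod_cast hd
      linarith
    have h4 : (e : ℤ) = s * q - n := by
      have : (s : ℤ) * q = n + e := by exact_mod_cast hee
      linarith
    have h5 : (d : ℤ) * e = n * n + s := by rw [h3, h4, h1]
    exact_mod_cast h5
  intro B hB hBp
  obtain ⟨x, y, hxy, rfl⟩ := Finset.card_eq_two.1 hB
  have hx := hBp x (by simp)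
  have hy := hBp y (by simp)
  have hprod : ∏ p ∈ ({x, y} : Finset ℕ), p = x * y := Finset.prod_pair hxy
  have hdv : dv ({x, y} : Finset ℕ) = y + x := by
    rw [dv_insert {y} x (by simpa using hxy)]
    simp [dv]
  rw [hprod, hdv]
  rcases lt_or_gt_of_ne hxy with h | h
  · exact key x y hx.1 hy.1 hx.2 h
  · have := key y x hy.1 hx.1 hy.2 h
    rwa [mul_comm y x, add_comm x y] at this

theorem big_dir : dir 651722604497 3 2 403700 = true := by decide +kernel

theorem big_prime : Nat.Prime 651722604497 := by
  refine Nat.prime_def_minFac.2 ⟨by norm_num, ?_⟩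
  by_contra hne
  obtain ⟨m, hm⟩ : ∃ m, m = Nat.minFac 651722604497 := ⟨_, rfl⟩
  rw [← hm] at hne
  have hmp : m.Prime := by rw [hm]; exact Nat.minFac_prime (by norm_num)
  have hmd : m ∣ 651722604497 := by rw [hm]; exact Nat.minFac_dvd _
  have hm2 : m * m ≤ 651722604497 := by
    have h1 := Nat.minFac_sq_le_self (n := 651722604497) (by norm_num) (by
      intro hp
      apply hne
      rw [hm]
      exact (Nat.prime_def_minFac.1 hp).2)
    rw [← hm, sq] at h1
    exact h1
  have hmlt : m < 807300 := by
    by_contra hcon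
    have := Nat.mul_le_mul (not_lt.1 hcon) (not_lt.1 hcon)
    omega
  have hodd : m % 2 = 1 := by
    refine Nat.odd_iff.1 (hmp.odd_of_ne_two ?_)
    rintro rfl
    omega
  have h3 : 3 ≤ m := by
    have := hmp.two_le
    omega
  apply dir_true big_dir ((m - 3) / 2) (by omega)
  rw [show 3 + 2 * ((m - 3) / 2) = m by omega]
  exact Nat.mod_eq_zero_of_dvd hmd

theorem top_leaf (last : ℕ) (hl : 2 ≤ last) : P 2 16163283290 257 last := by
  refine two_left _ _ _ ⟨by norm_num, by norm_num, hl⟩ fun p q d e _ _ _ _ hd he hde => ?_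
  have hM : d * e = 3 * 613 * 217979 * 651722604497 := by rw [hde]
  have key : ∀ x y : ℕ, x * y = 3 * 613 * 217979 * 651722604497 → 651722604497 ∣ y →
      x % 257 = 31 → False := by
    intro x y hxy hy hx
    obtain ⟨z, rfl⟩ := hy
    have h1 : x * z = 3 * 613 * 217979 := by
      have h2 : (x * z) * 651722604497 = (3 * 613 * 217979) * 651722604497 := by
        rw [← hxy]
        ring
      exact Nat.eq_of_mul_eq_mul_right (by norm_num) h2
    have h3 : x ∣ 3 * 613 * 217979 := ⟨z, h1.symm⟩
    obtain ⟨u, c, hu, hc, rfl⟩ := Nat.dvd_mul.1 h3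
    obtain ⟨a, b, ha, hb, rfl⟩ := Nat.dvd_mul.1 hu
    have p3 : Nat.Prime 3 := by norm_num
    have p6 : Nat.Prime 613 := by norm_num
    have p2 : Nat.Prime 217979 := by norm_num
    rcases (Nat.dvd_prime p3).1 ha with rfl | rfl <;> rcases (Nat.dvd_prime p6).1 hb with rfl | rfl <;>
      rcases (Nat.dvd_prime p2).1 hc with rfl | rfl <;> omega
  have hR : 651722604497 ∣ d * e := ⟨3 * 613 * 217979, by rw [hM]⟩
  rcases (Nat.Prime.dvd_mul big_prime).1 hR with h | h
  · exact key e d (by rw [mul_comm e d]; exact hM) h (by omega)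
  · exact key d e hM h (by omega)

end Pool.Agent.H33.PP
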